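import Pool.Agent.Q21.MI.Dim

/-!
# Definitions for the prime two part of the modular isomorphism problem with trivial third
dimension subgroup (project MI2)
-/

set_option autoImplicit false

namespace Q12.MI2

open Finset

/-! ## Bilinear maps given by integer tensors, over every commutative ring -/

/-- the bilinear map with structure constants `b`, over the commutative ring `R` -/
def bil {ι κ R : Type*} [Fintype ι] [CommRing R] (b : ι → ι → κ → ℤ) (x y : ι → R) : κ → R :=
  fun k => ∑ i, ∑ j, x i * y j * (b i j k : R)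

/-- the quadratic map `x ↦ bil b x x` -/
def qd {ι κ R : Type*} [Fintype ι] [CommRing R] (b : ι → ι → κ → ℤ) (x : ι → R) : κ → R :=
  bil b x x

/-- the reduction of a vector over the field with two elements to a ring of characteristic two -/
def cst {ι : Type*} (R : Type*) [CommRing R] [CharP R 2] (x : ι → ZMod 2) : ι → R :=
  fun i => ZMod.castHom (dvd_refl 2) R (x i)

/-! ## Bad vectors and torus data -/

section Blocks

variable {K V W V₀ : Type*} [Field K] [AddCommGroup V] [AddCommGroup W] [AddCommGroup V₀]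

/-- `v` is not zero and `β v` has at most one value different from zero -/
def Bad (β : V →+ V →+ W) (v : V) : Prop := v ≠ 0 ∧ ∃ c, ∀ x, β v x = 0 ∨ β v x = c

open Classical in
/-- the indicator of `β v x ≠ 0` -/
noncomputable def lam (K : Type*) [Field K] (β : V →+ V →+ W) (v x : V) : K :=
  if β v x = 0 then 0 else 1

/-- the Frobenius twist of an additive function -/
def sq {K V : Type*} [Field K] [CharP K 2] [AddCommGroup V] (u : V →+ K) : V →+ K where
  toFun v := u v ^ 2
  map_zero' := by simp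
  map_add' x y := by rw [map_add, add_pow_char]

/-- The torus data: `V = G/Z(G)`, `V₀ = G/Φ(G)`, `W = Φ(G)`, `q` the squaring map,
`μ v u` the component at `v` of the derivation of `K[G/Z(G)]` attached to `u`. -/
structure Tor (K V W V₀ : Type*) [Field K] [AddCommGroup V] [Fintype V] [AddCommGroup W]
    [AddCommGroup V₀] where
  β : V →+ V →+ W
  q : V₀ → W
  p : V₀ →+ V
  hp : Function.Surjective p
  hV : ∀ v : V, v + v = 0
  hW : ∀ w : W, w + w = 0
  hV₀ : ∀ x : V₀, x + x = 0
  hq : ∀ x y, q (x + y) = q x + q y + β (p x) (p y)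
  nondeg : ∀ v, (∀ x, β v x = 0) → v = 0
  μ : V → (V →+ K) →ₗ[K] (V →+ K)
  h1 : ∀ u, ∑ v, μ v u = u
  hcomm : ∀ u u' w, ∑ v, ((μ (w + v) u v) • μ v u' + (μ (w + v) u' v) • μ v u) = 0
  hϖ : ∃ ϖ : V → K, ϖ 0 = 1 ∧ ∀ u x, ∑ v, μ v u x * ϖ (v + x) = 0
  hT : ∀ v, v ≠ 0 → ∀ u, μ v u ≠ 0 → Bad β v ∧
    ∃ φ : W →+ K, ∀ x : V₀, φ (q x) = lam K β v (p x) * μ v u (p x)

namespace Tor

variable [Fintype V] (T : Tor K V W V₀)

/-- a function on `V₀` lies in the space `Q` of the quadratic functions `φ ∘ q` -/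
def InQ (f : V₀ → K) : Prop := ∃ φ : W →+ K, ∀ x, φ (T.q x) = f x

/-- the operator is a product of elementary factors `1 + y ⊗ λ_y`, with `y` a combination of bad
vectors with the same value `c`, all of whose squares lie in `Q` -/
def Trans (N : (V →+ K) →ₗ[K] (V →+ K)) : Prop :=
  ∃ (c : W) (a : V → K), (∀ v, a v ≠ 0 → (∀ x, T.β v x = 0 ∨ T.β v x = c) ∧
      T.InQ (fun x => lam K T.β v (T.p x))) ∧
    ∀ ζ x, N ζ x = ζ x + (∑ v, a v * ζ v) * (∑ v, a v * lam K T.β v x)

/-- `X` lies in the Lie algebra of the stabiliser of `Q` -/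
def InG (X : (V →+ K) →ₗ[K] (V →+ K)) : Prop :=
  ∀ ψ : W →+ K, T.InQ (fun x => X (ψ.comp (T.β (T.p x))) (T.p x))

/-- `v` is bad and does not commute with some bad vector -/
def HTy (v : V) : Prop := Bad T.β v ∧ ∃ v', Bad T.β v' ∧ T.β v v' ≠ 0

/-- `v` is bad and commutes with all bad vectors -/
def LTy (v : V) : Prop := Bad T.β v ∧ ∀ v', Bad T.β v' → T.β v v' = 0

/-- all values of `β v` are `0` or `c` -/
def Val (c : W) (v : V) : Prop := ∀ x, T.β v x = 0 ∨ T.β v x = c

/-- the class of `c` is split -/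
def Spl (c : W) : Prop := ∃ v, T.HTy v ∧ T.Val c v ∧ ∃ u, T.μ v u v ≠ 0

open Classical in
/-- the block of the noncommuting bad vectors with value `c` -/
noncomputable def blkH (c : W) : Finset V := univ.filter (fun v => T.HTy v ∧ T.Val c v)

open Classical in
/-- the block of the commuting bad vectors `v` with `lam v = l` -/
noncomputable def blkL (l : V → K) : Finset V :=
  univ.filter (fun v => T.LTy v ∧ (fun x => lam K T.β v x) = l)

open Classical in
/-- the nonzero vectors -/
noncomputable def nz (V : Type*) [AddCommGroup V] [Fintype V] : Finset V :=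
  univ.filter (fun v => v ≠ 0)

/-- the quadratic expression of a block -/
noncomputable def bq (I : Finset V) (u : V →+ K) : V →+ K := ∑ v ∈ I, u v • T.μ v u

end Tor

end Blocks

/-! ## Matrices of operators on additive functions -/

section Mats

variable {K ι₁ ι₂ κ : Type*} [Field K] [CharP K 2]

/-- the coordinate functions -/
def crd (K : Type*) {ι₁ : Type*} [Field K] [CharP K 2] (i : ι₁) : (ι₁ → ZMod 2) →+ K where
  toFun x := ZMod.castHom (dvd_refl 2) K (x i)
  map_zero' := by simp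
  map_add' x y := by simp

/-- the matrix of the transpose of an operator on the additive functions on `ι₁ → ZMod 2` -/
def mat [DecidableEq ι₁] (N : Module.End K ((ι₁ → ZMod 2) →+ K)) : Matrix ι₁ ι₁ K :=
  fun i j => N (crd K i) (Pi.single j 1)

/-- the torus data is given by the tensor `b` in coordinates -/
def CoordTor [Fintype ι₁] [DecidableEq ι₁] [Fintype ι₂] (b : (ι₁ ⊕ ι₂) → (ι₁ ⊕ ι₂) → κ → ℤ)
    (T : Tor K (ι₁ → ZMod 2) (κ → ZMod 2) (ι₁ ⊕ ι₂ → ZMod 2)) : Prop :=
  (∀ x, T.q x = qd b x) ∧ (∀ x i, T.p x i = x (Sum.inl i))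

end Mats

open Polynomial in
/-- a polynomial path in the stabiliser of the quadratic map of `b`, from the identity to `M₁` -/
def PathTo (K : Type*) [Field K] {ι κ : Type*} [Fintype ι] [DecidableEq ι] [Fintype κ]
    [DecidableEq κ] (b : ι → ι → κ → ℤ) (M₁ : Matrix ι ι K) : Prop :=
  ∃ (M : Matrix ι ι K[X]) (C : Matrix κ κ K[X]),
    (∀ x : ι → K[X], qd b (M.mulVec x) = C.mulVec (qd b x)) ∧
    M.map (Polynomial.eval 0) = 1 ∧ C.map (Polynomial.eval 0) = 1 ∧
    M.map (Polynomial.eval 1) = M₁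

/-- the matrix lies in the stabiliser of the quadratic map of `b` -/
def InStab {K : Type*} [Field K] {ι κ : Type*} [Fintype ι] [Fintype κ]
    (b : ι → ι → κ → ℤ) (M : Matrix ι ι K) (C : Matrix κ κ K) : Prop :=
  ∀ x : ι → K, qd b (M.mulVec x) = C.mulVec (qd b x)

/-! ## Coordinates on the groups -/

/-- coordinates on a group `G` which is a central extension of an elementary abelian 2-group by an
elementary abelian 2-group -/
structure Pre (G ι κ : Type*) [Group G] where
  ξ : G → ι → ZMod 2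
  ξ_mul : ∀ g h, ξ (g * h) = ξ g + ξ h
  ξ_surj : Function.Surjective ξ
  θ : G → κ → ZMod 2
  θ_mul : ∀ g h, ξ g = 0 → ξ h = 0 → θ (g * h) = θ g + θ h
  θ_surj : ∀ w, ∃ g, ξ g = 0 ∧ θ g = w
  θ_inj : ∀ g, ξ g = 0 → θ g = 0 → g = 1
  central : ∀ g, ξ g = 0 → g ∈ Subgroup.center G

/-- full coordinates on the group `G` -/
structure Coord (G ι₁ ι₂ κ : Type*) [Group G] [Fintype ι₁] [Fintype ι₂] where
  b : (ι₁ ⊕ ι₂) → (ι₁ ⊕ ι₂) → κ → ℤ
  ξ : G → (ι₁ ⊕ ι₂) → ZMod 2
  ψ : G → κ → ZMod 2
  ξ_mul : ∀ g h, ξ (g * h) = ξ g + ξ h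
  ψ_mul : ∀ g h, ψ (g * h) = ψ g + ψ h + bil b (ξ g) (ξ h)
  bij : Function.Bijective (fun g => (ξ g, ψ g))
  center : ∀ g, g ∈ Subgroup.center G ↔ ∀ i, ξ g (Sum.inl i) = 0
  span : Submodule.span (ZMod 2) (Set.range (qd b : (ι₁ ⊕ ι₂ → ZMod 2) → κ → ZMod 2)) = ⊤

/-! ## Two group bases -/

section Two

open Q21.MI

variable {K A G H ι₁ ι₂ κ : Type*} [Field K] [CharP K 2] [Ring A] [Algebra K A] [Group G] [Group H]
variable [Fintype ι₁] [DecidableEq ι₁] [Fintype ι₂]

/-- the linear extension of `ξ` -/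
noncomputable def Xl (B : GBasis K A G) (c : Coord G ι₁ ι₂ κ) : A →ₗ[K] (ι₁ ⊕ ι₂ → K) :=
  B.b.constr K (fun g => cst K (c.ξ g))

/-- the linear extension of `ψ` -/
noncomputable def Pl (B : GBasis K A G) (c : Coord G ι₁ ι₂ κ) : A →ₗ[K] (κ → K) :=
  B.b.constr K (fun g => cst K (c.ψ g))

/-- the class of `g` modulo the centre -/
def x1 (c : Coord G ι₁ ι₂ κ) (g : G) : ι₁ → ZMod 2 := fun i => c.ξ g (Sum.inl i)

/-- the additive function on `H` attached to an additive function on `ι₁ → ZMod 2` -/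
noncomputable def su (B : GBasis K A G) (C : GBasis K A H) (c : Coord G ι₁ ι₂ κ)
    (u : (ι₁ → ZMod 2) →+ K) (h : H) : K :=
  ∑ i : ι₁, u (Pi.single i 1) * Xl B c (C.b h) (Sum.inl i)

open Classical in
/-- the coefficients of the image in the group algebra of `G/Z(G)` -/
noncomputable def pr [Fintype G] (B : GBasis K A G) (c : Coord G ι₁ ι₂ κ) (a : A)
    (v : ι₁ → ZMod 2) : K :=
  ∑ g : G, if x1 c g = v then B.b.repr a g else 0

/-- the operator on functions given by a family `μ` -/
noncomputable def Db {V : Type*} [AddCommGroup V] [Fintype V]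
    (μ : V → (V →+ K) →ₗ[K] (V →+ K)) (u : V →+ K) : (V → K) →ₗ[K] (V → K) where
  toFun f w := ∑ x, f x * μ (w + x) u x
  map_add' f f' := by
    funext w; simp only [Pi.add_apply, add_mul, Finset.sum_add_distrib]
  map_smul' k f := by
    funext w
    simp only [Pi.smul_apply, smul_eq_mul, Finset.mul_sum, RingHom.id_apply, mul_assoc]

end Two

end Q12.MI2
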