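import Pool.Agent.Q12.MI2.Mn
import Pool.Agent.Q96.MI2.Fin
import Pool.Agent.Q96.MI2.Bad
import Pool.Agent.Q96.MI2.Sym
import Pool.Agent.Q96.MI2.Pln
import Pool.Agent.Q96.MI2.Mu
import Pool.Agent.Q96.MI2.Stq
import Pool.Agent.Q96.MI2.Syma
import Pool.Agent.Q239.MI2.GAM
import Pool.Agent.Q239.MI2.BLK
import Pool.Agent.Q48.MI2.Ham
import Pool.Agent.Q48.MI2.Pg
import Pool.Agent.Q222.MI2.FAC
import Pool.Agent.Q222.MI2.LNG
import Pool.Agent.Q222.MI2.SPC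
import Pool.Agent.Q198.MI2.TOR
import Pool.Agent.Q150.MI2.M1
import Pool.Agent.Q150.MI2.A5
import Pool.Agent.Q31.MI2.Form
import Pool.Agent.Q224.MI2.A1
import Pool.Agent.Q224.MI2.A1a
import Pool.Agent.Q224.MI2.A1b
import Pool.Agent.Q224.MI2.A6
import Pool.Agent.Q22.MI2.Zv
import Pool.Agent.Q222.MI2.PL
import Pool.Agent.Q222.MI2.TRV
import Pool.Agent.Q21.MI.Fin

/-!
# Project MI2: the modular isomorphism problem over all fields when the third dimension subgroup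
is trivial (all primes)
-/

set_option autoImplicit false

namespace Q12.MI2.Main

open Q12.MI2 Q21.MI

universe u v w w'


section hyps

/-- the block decomposition -/
theorem blk' (hTRV : S_TRV.{u}) : S_BLK.{u} :=
  Pool.Agent.Q239.MI2.blk Pool.Agent.Q96.MI2.bad Pool.Agent.Q96.MI2.symh Pool.Agent.Q96.MI2.pln
    Pool.Agent.Q96.MI2.symp Pool.Agent.Q96.MI2.syml Pool.Agent.Q239.MI2.gam
    (Pool.Agent.Q48.MI2.t_HAM Pool.Agent.Q239.MI2.inj hTRV) Pool.Agent.Q239.MI2.lg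
    Pool.Agent.Q48.MI2.t_PG

/-- the torus data -/
theorem tor' (hPR : S_PR.{u, v, w}) (hCZ : S_CZ.{u, v, w, w'}) (hZV : S_ZV.{u, v, w, w'})
    (hALG : S_ALG.{u}) (hPHI : S_PHI.{u}) : S_TOR.{u, v, w, w'} :=
  Pool.Agent.Q198.MI2.t_TOR Q251.MI2.xm hPR hCZ
    (Pool.Agent.Q96.MI2.mu Q251.MI2.xm hPR hZV) (Pool.Agent.Q96.MI2.db Q251.MI2.xm hPR)
    hALG hPHI (Pool.Agent.Q198.MI2.t_T3 hPR)

/-- the main theorem over an algebraically closed field -/
theorem mn' (hTRV : S_TRV.{u}) (hPL : S_PL.{u})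
    (hPR : S_PR.{u, v, w}) (hCZ : S_CZ.{u, v, w, w'}) (hZV : S_ZV.{u, v, w, w'})
    (hALG : S_ALG.{u}) (hPHI : S_PHI.{u}) : S_MN.{u, v, w, w'} :=
  Q12.MI2.Mn.mn Pool.Agent.Q96.MI2.bad (blk' hTRV) Pool.Agent.Q239.MI2.gam
    Pool.Agent.Q96.MI2.syma Pool.Agent.Q222.MI2.t_FAC hPL Q31.MI2.form
    (tor' hPR hCZ hZV hALG hPHI) Pool.Agent.Q150.MI2.m1
    (Pool.Agent.Q96.MI2.stq Pool.Agent.Q222.MI2.t_QE) Pool.Agent.Q222.MI2.t_QE
    (Pool.Agent.Q224.MI2.ext Pool.Agent.Q224.MI2.icr)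

/-- prime two, hypotheses on the squares of the group -/
theorem two' (hTRV : S_TRV.{u}) (hPL : S_PL.{u})
    (hPR : S_PR.{u, max u w, w}) (hCZ : S_CZ.{u, max u w, w, w'})
    (hZV : S_ZV.{u, max u w, w, w'}) (hALG : S_ALG.{u}) (hPHI : S_PHI.{u})
    (F : Type u) [Field F] [CharP F 2] (G : Type w) [Group G] [Finite G]
    (h1 : ∀ g h : G, g * g * h = h * (g * g)) (h2 : ∀ g : G, g * g * (g * g) = 1)
    (H : Type w') [Group H] (he : Nonempty (MonoidAlgebra F G ≃ₐ[F] MonoidAlgebra F H)) :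
    Nonempty (G ≃* H) := by
  haveI : CharP (AlgebraicClosure F) 2 :=
    charP_of_injective_algebraMap (algebraMap F (AlgebraicClosure F)).injective 2
  obtain ⟨n₁, n₂, m, ⟨c⟩⟩ := Pool.Agent.Q224.MI2.a1 Pool.Agent.Q224.MI2.a1a
    (Pool.Agent.Q224.MI2.a1b (Pool.Agent.Q224.MI2.ext Pool.Agent.Q224.MI2.icr)) G h1 h2
  obtain ⟨e⟩ := Pool.Agent.Q150.MI2.a5 F (AlgebraicClosure F) G H he
  obtain ⟨C, hC⟩ := Pool.Agent.Q96.MI2.exists_twist (GBasis.std (AlgebraicClosure F) G)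
    ((GBasis.std (AlgebraicClosure F) H).map e.symm)
  exact mn' hTRV hPL hPR hCZ hZV hALG hPHI (AlgebraicClosure F)
    (MonoidAlgebra (AlgebraicClosure F) G) G H (Fin n₁) (Fin n₂)
    (Fin m) (GBasis.std (AlgebraicClosure F) G) C c hC

end hyps

/-- the modular isomorphism theorem for the prime two, for groups with central squares and
exponent dividing four, over every field of characteristic two -/
theorem two (F : Type u) [Field F] [CharP F 2] (G : Type w) [Group G] [Finite G]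
    (h1 : ∀ g h : G, g * g * h = h * (g * g)) (h2 : ∀ g : G, g * g * (g * g) = 1)
    (H : Type w') [Group H] (he : Nonempty (MonoidAlgebra F G ≃ₐ[F] MonoidAlgebra F H)) :
    Nonempty (G ≃* H) :=
  two' Pool.Agent.Q222.MI2.t_TRV Pool.Agent.Q222.MI2.t_PL Q22.MI2.pr_all Q22.MI2.cz_full
    Q22.MI2.zv_full Q22.MI2.alg Q22.MI2.phi F G h1 h2 H he

end Q12.MI2.Main
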