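import Pool.Agent.Q12.MI2.Stm3
import Pool.Agent.Q251.MI2.XM

/-! Project MI2: the main theorem over an algebraically closed field (assembly). -/

set_option autoImplicit false

namespace Q12.MI2.Mn

open Q12.MI2 Finset Q21.MI Q251.MI2

universe u v w w'

section aux

variable {K : Type*} [Field K] [CharP K 2]

lemma cst_inj {ι : Type*} {x y : ι → ZMod 2} (h : cst K x = cst K y) : x = y := by
  funext i
  have := congrFun h i
  simp only [cst] at this
  exact (ZMod.castHom (dvd_refl 2) K).injective this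

lemma cst_zero {ι : Type*} : cst K (0 : ι → ZMod 2) = 0 := by
  funext i
  simp [cst]

lemma zmod2_sq (a : ZMod 2) : a ^ 2 = a := by
  revert a; decide

/-- elements fixed by the Frobenius lie in the prime field -/
lemma exists_of_sq {a : K} (h : a ^ 2 = a) : ∃ z : ZMod 2, a = ZMod.castHom (dvd_refl 2) K z := by
  have h1 : a * (a - 1) = 0 := by linear_combination h
  rcases mul_eq_zero.mp h1 with h2 | h2
  · exact ⟨0, by rw [map_zero, h2]⟩
  · exact ⟨1, by rw [map_one]; exact sub_eq_zero.mp h2⟩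

lemma cst_sq {ι : Type*} (x : ι → ZMod 2) : (fun i => cst K x i ^ 2) = cst K x := by
  funext i
  simp only [cst]
  rw [← map_pow, zmod2_sq]

/-- entrywise squares and products -/
lemma sq_mulVec {m n : Type*} [Fintype n] (M : Matrix m n K) (x : n → K) :
    (fun i => (M.mulVec x) i ^ 2) = (M.map (fun a => a ^ 2)).mulVec (fun j => x j ^ 2) := by
  funext i
  simp only [Matrix.mulVec, dotProduct, Matrix.map_apply]
  rw [CharTwo.sum_sq]
  exact Finset.sum_congr rfl fun j _ => mul_pow _ _ _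

lemma map_sq_mul {l m n : Type*} [Fintype m] (M : Matrix l m K) (N : Matrix m n K) :
    (M * N).map (fun a => a ^ 2) = M.map (fun a => a ^ 2) * N.map (fun a => a ^ 2) := by
  ext i j
  simp only [Matrix.map_apply, Matrix.mul_apply]
  rw [CharTwo.sum_sq]
  exact Finset.sum_congr rfl fun j _ => mul_pow _ _ _

lemma sq_qd {ι κ : Type*} [Fintype ι] (b : ι → ι → κ → ℤ) (x : ι → K) :
    (fun k => qd b x k ^ 2) = qd b (fun i => x i ^ 2) := by
  funext k
  simp only [qd, bil]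
  rw [CharTwo.sum_sq]
  refine Finset.sum_congr rfl fun i _ => ?_
  rw [CharTwo.sum_sq]
  refine Finset.sum_congr rfl fun j _ => ?_
  rw [mul_pow, mul_pow]
  congr 1
  have : ((b i j k : ℤ) : K) = ZMod.castHom (dvd_refl 2) K ((b i j k : ℤ) : ZMod 2) := by
    rw [map_intCast]
  rw [this, ← map_pow, zmod2_sq]

omit [CharP K 2] in
/-- expansion of a quadratic map at a linear combination -/
lemma qd_mulVec {ι ι' κ : Type*} [Fintype ι] [Fintype ι'] (b : ι → ι → κ → ℤ)
    (M : Matrix ι ι' K) (x : ι' → K) (k : κ) :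
    qd b (M.mulVec x) k =
      ∑ i, ∑ j, bil b (fun a => M a i) (fun a => M a j) k * x i * x j := by
  simp only [qd, bil, Matrix.mulVec, dotProduct]
  simp only [Finset.sum_mul, Finset.mul_sum]
  have e1 : ∀ p q : ι, (∑ j' : ι', ∑ i' : ι', M p i' * x i' * (M q j' * x j') * (b p q k : K))
      = ∑ i' : ι', ∑ j' : ι', M p i' * M q j' * (b p q k : K) * x i' * x j' := by
    intro p q
    rw [Finset.sum_comm]
    exact Finset.sum_congr rfl fun i' _ => Finset.sum_congr rfl fun j' _ => by ring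
  simp only [e1]
  calc (∑ p : ι, ∑ q : ι, ∑ i' : ι', ∑ j' : ι', M p i' * M q j' * (b p q k : K) * x i' * x j')
      = ∑ p : ι, ∑ i' : ι', ∑ q : ι, ∑ j' : ι', M p i' * M q j' * (b p q k : K) * x i' * x j' :=
        Finset.sum_congr rfl fun p _ => Finset.sum_comm
    _ = ∑ i' : ι', ∑ p : ι, ∑ q : ι, ∑ j' : ι', M p i' * M q j' * (b p q k : K) * x i' * x j' :=
        Finset.sum_comm
    _ = ∑ i' : ι', ∑ p : ι, ∑ j' : ι', ∑ q : ι, M p i' * M q j' * (b p q k : K) * x i' * x j' :=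
        Finset.sum_congr rfl fun i _ => Finset.sum_congr rfl fun p _ => Finset.sum_comm
    _ = ∑ i' : ι', ∑ j' : ι', ∑ p : ι, ∑ q : ι, M p i' * M q j' * (b p q k : K) * x i' * x j' :=
        Finset.sum_congr rfl fun i _ => Finset.sum_comm

end aux


section stab

variable {K : Type u} [Field K] [CharP K 2]

/-- the squared lattice matrices stabilise the quadratic map -/
lemma inStab_of_lattice (hQE : S_QE.{u}) {ι κ : Type} [Fintype ι] [DecidableEq ι] [Fintype κ]
    [DecidableEq κ] (b : ι → ι → κ → ℤ) (P₀ : Matrix ι ι K) (R₀ : Matrix κ κ K)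
    (hP : P₀.det ≠ 0) (hR : R₀.det ≠ 0)
    (h : ∀ y : ι → ZMod 2, ∃ z : κ → ZMod 2, qd b (P₀.mulVec (cst K y)) = R₀.mulVec (cst K z)) :
    InStab b (P₀.map (fun a => a ^ 2) * P₀⁻¹) (R₀.map (fun a => a ^ 2) * R₀⁻¹) := by
  have hPu : IsUnit P₀.det := isUnit_iff_ne_zero.mpr hP
  have hRu : IsUnit R₀.det := isUnit_iff_ne_zero.mpr hR
  set M₁ := P₀.map (fun a => a ^ 2) * P₀⁻¹ with hM₁
  set C₁ := R₀.map (fun a => a ^ 2) * R₀⁻¹ with hC₁
  have hMP : M₁ * P₀ = P₀.map (fun a => a ^ 2) := by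
    rw [hM₁, Matrix.mul_assoc, Matrix.nonsing_inv_mul _ hPu, Matrix.mul_one]
  have hCR : C₁ * R₀ = R₀.map (fun a => a ^ 2) := by
    rw [hC₁, Matrix.mul_assoc, Matrix.nonsing_inv_mul _ hRu, Matrix.mul_one]
  -- on lattice points
  have hpt : ∀ y : ι → ZMod 2, qd b ((M₁ * P₀).mulVec (cst K y))
      = C₁.mulVec (qd b (P₀.mulVec (cst K y))) := by
    intro y
    obtain ⟨z, hz⟩ := h y
    rw [hMP, hz, Matrix.mulVec_mulVec, hCR]
    have h1 := sq_mulVec P₀ (cst K y)
    rw [cst_sq] at h1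
    have h2 := sq_mulVec R₀ (cst K z)
    rw [cst_sq] at h2
    rw [← h1, ← h2, ← sq_qd, hz]
  -- extension
  have hall : ∀ (y : ι → K) (k : κ), qd b ((M₁ * P₀).mulVec y) k
      = (C₁.mulVec (qd b (P₀.mulVec y))) k := by
    intro y k
    let D : Matrix ι ι K := fun i j =>
      bil b (fun a => (M₁ * P₀) a i) (fun a => (M₁ * P₀) a j) k
        - ∑ l, C₁ k l * bil b (fun a => P₀ a i) (fun a => P₀ a j) l
    have hD : ∀ y : ι → K, ∑ i, ∑ j, D i j * y i * y j
        = qd b ((M₁ * P₀).mulVec y) k - (C₁.mulVec (qd b (P₀.mulVec y))) k := by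
      intro y
      have e2 : (C₁.mulVec (qd b (P₀.mulVec y))) k
          = ∑ i, ∑ j, (∑ l, C₁ k l * bil b (fun a => P₀ a i) (fun a => P₀ a j) l) * y i * y j := by
        have : ∀ l, C₁ k l * qd b (P₀.mulVec y) l = ∑ i, ∑ j,
            C₁ k l * bil b (fun a => P₀ a i) (fun a => P₀ a j) l * y i * y j := by
          intro l
          rw [qd_mulVec b P₀ y l, Finset.mul_sum]
          refine Finset.sum_congr rfl fun i _ => ?_
          rw [Finset.mul_sum]
          exact Finset.sum_congr rfl fun j _ => by ring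
        have e3 : (C₁.mulVec (qd b (P₀.mulVec y))) k = ∑ l, C₁ k l * qd b (P₀.mulVec y) l := rfl
        rw [e3, Finset.sum_congr rfl fun l _ => this l, Finset.sum_comm]
        refine Finset.sum_congr rfl fun i _ => ?_
        rw [Finset.sum_comm]
        refine Finset.sum_congr rfl fun j _ => ?_
        rw [Finset.sum_mul, Finset.sum_mul]
      rw [qd_mulVec, e2, ← Finset.sum_sub_distrib]
      refine Finset.sum_congr rfl fun i _ => ?_
      rw [← Finset.sum_sub_distrib]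
      refine Finset.sum_congr rfl fun j _ => ?_
      simp only [D]
      ring
    have h0 : ∀ x : ι → ZMod 2, ∑ i, ∑ j, D i j * cst K x i * cst K x j = 0 := by
      intro x
      rw [hD, hpt, sub_self]
    have h1 := hQE K ι D h0 K y
    simp only [Algebra.algebraMap_self, RingHom.id_apply] at h1
    rw [hD] at h1
    exact sub_eq_zero.mp h1
  intro x
  have hx : x = P₀.mulVec (P₀⁻¹.mulVec x) := by
    rw [Matrix.mulVec_mulVec, Matrix.mul_nonsing_inv _ hPu, Matrix.one_mulVec]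
  funext k
  have := hall (P₀⁻¹.mulVec x) k
  rw [← Matrix.mulVec_mulVec, ← hx] at this
  exact this

/-- a stabiliser matrix on the target is unique -/
lemma stab_unique {ι κ : Type} [Fintype ι] [Fintype κ] [DecidableEq κ]
    (b : ι → ι → κ → ℤ)
    (hspan : Submodule.span (ZMod 2) (Set.range (qd b : (ι → ZMod 2) → κ → ZMod 2)) = ⊤)
    (M : Matrix ι ι K) (C C' : Matrix κ κ K) (h : InStab b M C) (h' : InStab b M C') : C = C' := by
  have hq : ∀ x : ι → ZMod 2, qd b (cst K x) = cst K (qd b x) := fun x => bil_cst b K x x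
  have key : ∀ w : κ → ZMod 2, C.mulVec (cst K w) = C'.mulVec (cst K w) := by
    intro w
    have hw : w ∈ Submodule.span (ZMod 2) (Set.range (qd b : (ι → ZMod 2) → κ → ZMod 2)) := by
      rw [hspan]; trivial
    induction hw using Submodule.span_induction with
    | mem x hx =>
      obtain ⟨y, rfl⟩ := hx
      rw [← hq, ← h, ← h']
    | zero => rw [cst_zero, Matrix.mulVec_zero, Matrix.mulVec_zero]
    | add x y _ _ hx hy =>
      rw [cst_add, Matrix.mulVec_add, Matrix.mulVec_add, hx, hy]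
    | smul a x _ hx =>
      have : cst K (a • x) = (ZMod.castHom (dvd_refl 2) K a) • cst K x := by
        funext i
        simp only [cst, Pi.smul_apply, smul_eq_mul, map_mul]
      rw [this, Matrix.mulVec_smul, Matrix.mulVec_smul, hx]
  ext k l
  have h1 := congrFun (key (Pi.single l 1)) k
  have h2 : cst K (Pi.single l 1 : κ → ZMod 2) = Pi.single l 1 := by
    funext i
    simp only [cst]
    by_cases hi : i = l
    · subst hi; simp
    · simp [Pi.single_eq_of_ne hi]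
  rw [h2, Matrix.mulVec_single_one, Matrix.mulVec_single_one] at h1
  exact h1

/-- two lattice matrices with the same twist differ by a matrix over the prime field -/
lemma lattice_compare {n : Type*} [Fintype n] [DecidableEq n] (P₀ P M : Matrix n n K)
    (hP₀ : P₀.det ≠ 0) (hM : M = P₀.map (fun a => a ^ 2) * P₀⁻¹)
    (hP : P.map (fun a => a ^ 2) = M * P) :
    ∃ Q : Matrix n n (ZMod 2), P = P₀ * Q.map (ZMod.castHom (dvd_refl 2) K) := by
  have hPu : IsUnit P₀.det := isUnit_iff_ne_zero.mpr hP₀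
  have hP2 : (P₀⁻¹ * P).map (fun a => a ^ 2) = P₀⁻¹ * P := by
    rw [map_sq_mul, hP, hM]
    have h1 : (P₀⁻¹).map (fun a => a ^ 2) * P₀.map (fun a => a ^ 2) = 1 := by
      rw [← map_sq_mul, Matrix.nonsing_inv_mul _ hPu]
      ext i j
      by_cases hij : i = j
      · subst hij; simp
      · simp [Matrix.one_apply_ne hij]
    rw [← Matrix.mul_assoc, ← Matrix.mul_assoc, h1, Matrix.one_mul]
  have hex : ∀ i j, ∃ z : ZMod 2, (P₀⁻¹ * P) i j = ZMod.castHom (dvd_refl 2) K z := by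
    intro i j
    exact exists_of_sq (congrFun (congrFun hP2 i) j)
  choose Q hQ using hex
  refine ⟨Matrix.of Q, ?_⟩
  have : (Matrix.of Q).map (ZMod.castHom (dvd_refl 2) K) = P₀⁻¹ * P := by
    ext i j
    rw [Matrix.map_apply, Matrix.of_apply, hQ]
  rw [this, ← Matrix.mul_assoc, Matrix.mul_nonsing_inv _ hPu, Matrix.one_mul]

lemma mulVec_cst {n : Type*} [Fintype n] (Q : Matrix n n (ZMod 2)) (x : n → ZMod 2) :
    (Q.map (ZMod.castHom (dvd_refl 2) K)).mulVec (cst K x) = cst K (Q.mulVec x) := by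
  funext i
  simp only [Matrix.mulVec, dotProduct, cst, Matrix.map_apply, map_sum, map_mul]

/-- comparison of lattices -/
lemma lattice_iff {n : Type*} [Fintype n] [DecidableEq n] (P₀ P : Matrix n n K)
    (hP : P.det ≠ 0) (Q : Matrix n n (ZMod 2))
    (h : P = P₀ * Q.map (ZMod.castHom (dvd_refl 2) K)) (v : n → K) :
    (∃ x : n → ZMod 2, v = P₀.mulVec (cst K x)) ↔ ∃ x : n → ZMod 2, v = P.mulVec (cst K x) := by
  have hQ : Q.det ≠ 0 := by
    intro h0
    apply hP
    rw [h, Matrix.det_mul]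
    have : (Q.map (ZMod.castHom (dvd_refl 2) K)).det = ZMod.castHom (dvd_refl 2) K Q.det := by
      rw [RingHom.map_det]; rfl
    rw [this, h0, map_zero, mul_zero]
  have hQu : IsUnit Q.det := isUnit_iff_ne_zero.mpr hQ
  constructor
  · rintro ⟨x, rfl⟩
    refine ⟨Q⁻¹.mulVec x, ?_⟩
    rw [h, ← Matrix.mulVec_mulVec, mulVec_cst, Matrix.mulVec_mulVec, Matrix.mul_nonsing_inv _ hQu,
      Matrix.one_mulVec]
  · rintro ⟨x, rfl⟩
    exact ⟨Q.mulVec x, by rw [h, ← Matrix.mulVec_mulVec, mulVec_cst]⟩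

end stab


section groups

/-- the coordinates of the first group -/
def preG {G : Type w} [Group G] {ι₁ ι₂ κ : Type} [Fintype ι₁] [Fintype ι₂]
    (c : Coord G ι₁ ι₂ κ) : Pre G (ι₁ ⊕ ι₂) κ where
  ξ := c.ξ
  ξ_mul := c.ξ_mul
  ξ_surj := fun x => by
    obtain ⟨g, hg⟩ := c.bij.2 (x, 0)
    exact ⟨g, congrArg Prod.fst hg⟩
  θ := c.ψ
  θ_mul := fun g h hg hh => by
    rw [c.ψ_mul, hg, bil_zero_left, add_zero]
  θ_surj := fun w => by
    obtain ⟨g, hg⟩ := c.bij.2 (0, w)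
    exact ⟨g, congrArg Prod.fst hg, congrArg Prod.snd hg⟩
  θ_inj := fun g hg hg' => by
    have hx1 : c.ξ 1 = 0 := by
      have := c.ξ_mul 1 1
      rw [mul_one] at this
      exact (add_eq_left.mp this.symm)
    have hp1 : c.ψ 1 = 0 := by
      have := c.ψ_mul 1 1
      rw [mul_one, hx1, bil_zero_left, add_zero] at this
      exact (add_eq_left.mp this.symm)
    apply c.bij.1
    show (c.ξ g, c.ψ g) = (c.ξ 1, c.ψ 1)
    rw [hg, hg', hx1, hp1]
  central := fun g hg => (c.center g).2 fun i => by rw [hg]; rfl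

variable {K : Type u} [Field K] [CharP K 2] {A : Type v} [Ring A] [Algebra K A]
  {G : Type w} [Group G] {H : Type w'} [Group H] {ι₁ ι₂ κ : Type}
  [Fintype ι₁] [DecidableEq ι₁] [Fintype ι₂] [DecidableEq ι₂] [Fintype κ] [DecidableEq κ]

omit [DecidableEq ι₂] [Fintype κ] [DecidableEq κ] in
/-- multiplication rules on the second group basis -/
lemma xm_H (B : GBasis K A G) (C : GBasis K A H) (c : Coord G ι₁ ι₂ κ) (haug : B.aug = C.aug)
    (h k : H) : Xl B c (C.b (h * k)) = Xl B c (C.b h) + Xl B c (C.b k) ∧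
      Pl B c (C.b (h * k)) = Pl B c (C.b h) + Pl B c (C.b k)
        + bil c.b (Xl B c (C.b h)) (Xl B c (C.b k)) := by
  obtain ⟨h1, h2⟩ := xm.{u, v, w} K A G ι₁ ι₂ κ B c (C.b h) (C.b k)
  rw [← C.mul, haug, GBasis.aug_b, GBasis.aug_b, one_smul, one_smul] at h1 h2
  exact ⟨by rw [h1, add_comm], by rw [h2, add_comm (Pl B c (C.b k))]⟩

lemma self_add_fun {n : Type*} (x : n → K) : x + x = 0 := by
  funext i
  exact CharTwo.add_self_eq_zero _

/-- coordinates on the second group from a good pair of matrices -/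
theorem preH (B : GBasis K A G) (C : GBasis K A H) (c : Coord G ι₁ ι₂ κ) (haug : B.aug = C.aug)
    (P : Matrix (ι₁ ⊕ ι₂) (ι₁ ⊕ ι₂) K) (R : Matrix κ κ K) (hP : P.det ≠ 0) (hR : R.det ≠ 0)
    (h1 : ∀ h, ∃ x : ι₁ ⊕ ι₂ → ZMod 2, Xl B c (C.b h) = P.mulVec (cst K x))
    (h2 : ∀ x : ι₁ ⊕ ι₂ → ZMod 2, ∃ h, Xl B c (C.b h) = P.mulVec (cst K x))
    (h3 : ∀ h, Xl B c (C.b h) = 0 → ∃ y : κ → ZMod 2, Pl B c (C.b h) = R.mulVec (cst K y))
    (h4 : ∀ y : κ → ZMod 2, ∃ h, Xl B c (C.b h) = 0 ∧ Pl B c (C.b h) = R.mulVec (cst K y))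
    (h5 : ∀ h, Xl B c (C.b h) = 0 → Pl B c (C.b h) = 0 → h = 1)
    (h6 : ∀ x : ι₁ ⊕ ι₂ → ZMod 2, qd c.b (P.mulVec (cst K x)) = R.mulVec (cst K (qd c.b x))) :
    ∃ P' : Pre H (ι₁ ⊕ ι₂) κ, ∀ h, P'.θ (h * h) = qd c.b (P'.ξ h) := by
  have hPi : Function.Injective (fun x : ι₁ ⊕ ι₂ → ZMod 2 => P.mulVec (cst K x)) := by
    intro x y hxy
    exact cst_inj (K := K) (Matrix.mulVec_injective_of_isUnit
      ((Matrix.isUnit_iff_isUnit_det P).mpr (isUnit_iff_ne_zero.mpr hP)) hxy)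
  have hRi : Function.Injective (fun x : κ → ZMod 2 => R.mulVec (cst K x)) := by
    intro x y hxy
    exact cst_inj (K := K) (Matrix.mulVec_injective_of_isUnit
      ((Matrix.isUnit_iff_isUnit_det R).mpr (isUnit_iff_ne_zero.mpr hR)) hxy)
  choose ξ hξ using h1
  have h3' : ∀ h, ∃ y : κ → ZMod 2, Xl B c (C.b h) = 0 → Pl B c (C.b h) = R.mulVec (cst K y) := by
    intro h
    by_cases h0 : Xl B c (C.b h) = 0
    · obtain ⟨y, hy⟩ := h3 h h0
      exact ⟨y, fun _ => hy⟩
    · exact ⟨0, fun h0' => absurd h0' h0⟩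
  choose θ hθ using h3'
  have hx0 : ∀ h, ξ h = 0 ↔ Xl B c (C.b h) = 0 := by
    intro h
    constructor
    · intro h0
      rw [hξ, h0, cst_zero, Matrix.mulVec_zero]
    · intro h0
      apply hPi
      show P.mulVec (cst K (ξ h)) = P.mulVec (cst K 0)
      rw [← hξ, h0, cst_zero, Matrix.mulVec_zero]
  have hmul : ∀ g h, ξ (g * h) = ξ g + ξ h := by
    intro g h
    apply hPi
    show P.mulVec (cst K (ξ (g * h))) = P.mulVec (cst K (ξ g + ξ h))
    rw [← hξ, (xm_H B C c haug g h).1, cst_add, Matrix.mulVec_add, ← hξ, ← hξ]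
  refine ⟨⟨ξ, hmul, ?_, θ, ?_, ?_, ?_, ?_⟩, ?_⟩
  · intro x
    obtain ⟨h, hh⟩ := h2 x
    exact ⟨h, hPi (by show P.mulVec (cst K (ξ h)) = _; rw [← hξ, hh])⟩
  · intro g h hg hh
    have hgh : ξ (g * h) = 0 := by rw [hmul, hg, hh, add_zero]
    apply hRi
    show R.mulVec (cst K (θ (g * h))) = R.mulVec (cst K (θ g + θ h))
    rw [← hθ _ ((hx0 _).1 hgh), (xm_H B C c haug g h).2, (hx0 _).1 hg, bil_zero_left, add_zero,
      cst_add, Matrix.mulVec_add, ← hθ _ ((hx0 _).1 hg), ← hθ _ ((hx0 _).1 hh)]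
  · intro w
    obtain ⟨h, hh, hh'⟩ := h4 w
    exact ⟨h, (hx0 h).2 hh, hRi (by
      show R.mulVec (cst K (θ h)) = R.mulVec (cst K w)
      rw [← hθ h hh, hh'])⟩
  · intro g hg hg'
    exact h5 g ((hx0 g).1 hg) (by rw [hθ g ((hx0 g).1 hg), hg', cst_zero, Matrix.mulVec_zero])
  · intro g hg
    rw [Subgroup.mem_center_iff]
    intro h
    have hX : Xl B c (C.b g) = 0 := (hx0 g).1 hg
    -- the element z with z (g h) = h g
    have hz : h * g * (g * h)⁻¹ * (g * h) = h * g := by group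
    have e1 := xm_H B C c haug (h * g * (g * h)⁻¹) (g * h)
    rw [hz] at e1
    have e2 := xm_H B C c haug h g
    have e3 := xm_H B C c haug g h
    rw [hX, bil_zero_right, add_zero] at e2
    rw [hX, bil_zero_left, add_zero, zero_add] at e3
    have hX1 : Xl B c (C.b (h * g * (g * h)⁻¹)) = 0 := by
      have := e1.1
      rw [e2.1, e3.1] at this
      exact (add_eq_right.mp this.symm)
    have hP1 : Pl B c (C.b (h * g * (g * h)⁻¹)) = 0 := by
      have := e1.2
      rw [hX1, bil_zero_left, add_zero, e2.2, add_zero, e3.2, add_comm (Pl B c (C.b h))] at this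
      exact (add_eq_right.mp this.symm)
    have := h5 _ hX1 hP1
    exact mul_inv_eq_one.mp this
  · intro h
    show θ (h * h) = qd c.b (ξ h)
    apply hRi
    show R.mulVec (cst K (θ (h * h))) = R.mulVec (cst K (qd c.b (ξ h)))
    have e := xm_H B C c haug h h
    have hX : Xl B c (C.b (h * h)) = 0 := by rw [e.1, self_add_fun]
    rw [← hθ _ hX, e.2, self_add_fun, zero_add, ← h6, ← hξ]
    rfl

end groups

/-- the main theorem over an algebraically closed field -/
theorem mn : S_BAD.{u} → S_BLK.{u} → S_GAM.{u} → S_SYMA.{u} → S_FAC.{u} → S_PL.{u} →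
    S_FORM.{u, v, w, w'} → S_TOR.{u, v, w, w'} → S_M1.{u, v, w, w'} → S_STQ.{u} → S_QE.{u} →
    S_EXT.{w, w'} → S_MN.{u, v, w, w'} := by
  intro hBAD hBLK hGAM hSYMA hFAC hPL hFORM hTOR hM1 hSTQ hQE hEXT
  intro K _ _ _ A _ _ G _ _ H _ ι₁ ι₂ κ _ _ _ _ _ _ B C c haug
  have hs : ∀ a : K, ∃ b, b ^ 2 = a := fun a => IsAlgClosed.exists_pow_nat_eq a (by norm_num)
  obtain ⟨P₀, R₀, hP₀, hR₀, f1, f2, f3, f4, f5⟩ := hFORM K A G H ι₁ ι₂ κ B C c haug
  haveI : Fintype G := Fintype.ofFinite G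
  obtain ⟨T, hT, hspan, htor⟩ := hTOR K A G H ι₁ ι₂ κ B C c haug
  obtain ⟨g, hg⟩ := hGAM K hs _ _ _ T (Tor.nz (ι₁ → ZMod 2)) (hSYMA K _ _ _ T)
  obtain ⟨Cc, Dd, hM₁⟩ := hM1 K hs A G H ι₁ ι₂ κ B C c P₀ hP₀ f1 f2 T hspan htor g hg
  -- the stabiliser
  have hst : InStab c.b (P₀.map (fun a => a ^ 2) * P₀⁻¹) (R₀.map (fun a => a ^ 2) * R₀⁻¹) := by
    refine inStab_of_lattice hQE c.b P₀ R₀ hP₀ hR₀ fun y => ?_
    obtain ⟨h, hh⟩ := f2 y
    have e := xm_H B C c haug h h
    have hX : Xl B c (C.b (h * h)) = 0 := by rw [e.1, self_add_fun]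
    obtain ⟨z, hz⟩ := f3 _ hX
    refine ⟨z, ?_⟩
    rw [← hz, e.2, self_add_fun, zero_add, ← hh]
    rfl
  have hdet₁ : (P₀.map (fun a => a ^ 2) * P₀⁻¹).det ≠ 0 := by
    rw [Matrix.det_mul]
    refine mul_ne_zero ?_ ?_
    · have : P₀.map (fun a => a ^ 2) = (frobenius K 2).mapMatrix P₀ := by
        ext i j; simp [frobenius_def]
      rw [this, ← RingHom.map_det]
      exact (map_ne_zero_iff _ (frobenius_inj K 2)).2 hP₀
    · exact (Matrix.isUnit_nonsing_inv_det _ (isUnit_iff_ne_zero.mpr hP₀)).ne_zero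
  rw [hM₁] at hst
  have hdet : (Matrix.fromBlocks (mat (1 + g)) 0 Cc Dd).det ≠ 0 := by rw [← hM₁]; exact hdet₁
  have hdetm : (mat (1 + g)).det ≠ 0 := by
    intro h0
    apply hdet
    rw [Matrix.det_fromBlocks_zero₁₂, h0, zero_mul]
  have hinj : ∀ u : (ι₁ → ZMod 2) →+ K, u + g u = 0 → u = 0 := by
    intro u hu
    have hexp : ∀ u' : (ι₁ → ZMod 2) →+ K, u' = ∑ i, u' (Pi.single i 1) • crd K i := by
      intro u'
      refine AddMonoidHom.ext fun x => ?_
      have hx : x = ∑ i, x i • (Pi.single i 1 : ι₁ → ZMod 2) := by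
        funext j
        rw [Finset.sum_apply]
        simp [Pi.single_apply]
      have hl : ∀ (z : ZMod 2) (y : ι₁ → ZMod 2), u' (z • y) = ZMod.castHom (dvd_refl 2) K z * u' y := by
        intro z y
        rcases (show z = 0 ∨ z = 1 from by revert z; decide) with rfl | rfl
        · rw [zero_smul, map_zero, map_zero, zero_mul]
        · rw [one_smul, map_one, one_mul]
      conv_lhs => rw [hx]
      rw [map_sum, AddMonoidHom.finsetSum_apply]
      refine Finset.sum_congr rfl fun i _ => ?_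
      rw [hl]
      show _ = u' (Pi.single i 1) * (ZMod.castHom (dvd_refl 2) K (x i))
      rw [mul_comm]
    have hv : Matrix.vecMul (fun i => u (Pi.single i 1)) (mat (1 + g)) = 0 := by
      funext j
      simp only [Matrix.vecMul, dotProduct, Pi.zero_apply, mat]
      have h1 : (1 + g) u = 0 := by
        simpa using hu
      have h2 : (1 + g) u (Pi.single j 1) = 0 := by rw [h1]; rfl
      conv_lhs at h2 => rw [hexp u]
      rw [map_sum, AddMonoidHom.finsetSum_apply] at h2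
      rw [← h2]
      refine Finset.sum_congr rfl fun i _ => ?_
      rw [map_smul]
      rfl
    have h0 : (fun i => u (Pi.single i 1)) = (0 : ι₁ → K) := by
      by_contra hne
      exact hdetm (Matrix.exists_vecMul_eq_zero_iff.mp ⟨_, hne, hv⟩)
    rw [hexp u]
    refine Finset.sum_eq_zero fun i _ => ?_
    have := congrFun h0 i
    simp only [Pi.zero_apply] at this
    rw [this, zero_smul]
  have hBadT := hBAD K _ _ _ T
  have hStab := hSTQ K ι₁ ι₂ κ c.b T hT g Cc Dd _ hst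
  obtain ⟨N, X, hN, hX, hfac⟩ := hBLK K hs _ _ _ T g hg hStab hinj
  have hpath := hFAC K ι₁ ι₂ κ c.b T hBadT hT g N X Cc Dd _ hN hX hfac hst
  obtain ⟨P, R, C₁', hP, hR, hst', hPsq, hRsq, hPR⟩ := hPL K (ι₁ ⊕ ι₂) κ c.b _ c.span hdet hpath
  have hC : C₁' = R₀.map (fun a => a ^ 2) * R₀⁻¹ := stab_unique c.b c.span _ _ _ hst' hst
  obtain ⟨Q, hQ⟩ := lattice_compare P₀ P _ hP₀ hM₁.symm hPsq
  obtain ⟨S, hS⟩ := lattice_compare R₀ R _ hR₀ hC hRsq
  have g1 : ∀ h, ∃ x : ι₁ ⊕ ι₂ → ZMod 2, Xl B c (C.b h) = P.mulVec (cst K x) :=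
    fun h => (lattice_iff P₀ P hP Q hQ _).1 (f1 h)
  have hQd : Q.det ≠ 0 := by
    intro h0
    apply hP
    rw [hQ, Matrix.det_mul]
    have : (Q.map (ZMod.castHom (dvd_refl 2) K)).det = ZMod.castHom (dvd_refl 2) K Q.det := by
      rw [RingHom.map_det]; rfl
    rw [this, h0, map_zero, mul_zero]
  have g2 : ∀ x : ι₁ ⊕ ι₂ → ZMod 2, ∃ h, Xl B c (C.b h) = P.mulVec (cst K x) := by
    intro x
    obtain ⟨h, hh⟩ := f2 (Q.mulVec x)
    exact ⟨h, by rw [hh, hQ, ← Matrix.mulVec_mulVec, mulVec_cst]⟩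
  have g3 : ∀ h, Xl B c (C.b h) = 0 → ∃ y : κ → ZMod 2, Pl B c (C.b h) = R.mulVec (cst K y) :=
    fun h h0 => (lattice_iff R₀ R hR S hS _).1 (f3 h h0)
  have g4 : ∀ y : κ → ZMod 2, ∃ h, Xl B c (C.b h) = 0 ∧ Pl B c (C.b h) = R.mulVec (cst K y) := by
    intro y
    obtain ⟨h, hh, hh'⟩ := f4 (S.mulVec y)
    exact ⟨h, hh, by rw [hh', hS, ← Matrix.mulVec_mulVec, mulVec_cst]⟩
  obtain ⟨P', hP'⟩ := preH B C c haug P R hP hR g1 g2 g3 g4 f5 hPR
  obtain ⟨e, -, -⟩ := hEXT G H (ι₁ ⊕ ι₂) κ (preG c) P' (by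
    intro a h hah
    rw [hP', ← hah]
    show c.ψ (a * a) = qd c.b (c.ξ a)
    have h0 : c.ψ a + c.ψ a = 0 := by
      funext i
      exact CharTwo.add_self_eq_zero _
    rw [c.ψ_mul, h0, zero_add]
    rfl)
  exact ⟨e⟩

end Q12.MI2.Mn
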