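import Pool.Agent.Q12.MI2.Defs

/-!
# Project MI2: the modular isomorphism problem over all fields when the third dimension subgroup
is trivial, for the prime two. Statements of all the steps, with their proofs in the docstrings.

Throughout `K` is a field of characteristic two in which every element is a square (in the end an
algebraic closure). Notation: `U = (V →+ K)`, `λ_v = lam K β v`, `μ_v(u) = T.μ v u`.
-/

set_option autoImplicit false

namespace Q12.MI2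

open Finset Polynomial Q21.MI

universe u v w

/-! ## 1. Bad vectors -/

section

variable {K V W V₀ : Type*} [Field K] [AddCommGroup V] [Fintype V] [AddCommGroup W]
  [AddCommGroup V₀]

/-- elementary facts on bad vectors -/
structure BadFacts (T : Tor K V W V₀) : Prop where
  sym : ∀ x y, T.β x y = T.β y x
  alt : ∀ x, T.β x x = 0
  ladd : ∀ v, Bad T.β v → ∀ x y, lam K T.β v (x + y) = lam K T.β v x + lam K T.β v y
  val : ∀ v, Bad T.β v → ∃ c, c ≠ 0 ∧ T.Val c v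
  valuniq : ∀ v c c', v ≠ 0 → T.Val c v → T.Val c' v → c = c'
  yadd : ∀ c v v', T.Val c v → T.Val c v' → T.Val c (v + v')
  lamadd : ∀ c v v', T.Val c v → T.Val c v' → ∀ x,
    lam K T.β (v + v') x = lam K T.β v x + lam K T.β v' x
  laminj : ∀ c v v', T.Val c v → T.Val c v' → (∀ x, lam K T.β v x = lam K T.β v' x) → v = v'
  noncomm : ∀ v v', Bad T.β v → Bad T.β v' → T.β v v' ≠ 0 →
    T.Val (T.β v v') v ∧ T.Val (T.β v v') v'
  huniq : ∀ v v', T.HTy v → Bad T.β v' → (∀ x, lam K T.β v' x = lam K T.β v x) → v' = v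
  polar : ∀ v u, v ≠ 0 → T.μ v u ≠ 0 → ∃ φ : W →+ K, ∀ x y,
    φ (T.β x y) = lam K T.β v x * T.μ v u y + lam K T.β v y * T.μ v u x
  comm : ∀ v v' u, v ≠ 0 → Bad T.β v' → T.β v v' = 0 → T.μ v u v' ≠ 0 →
    ∀ x, lam K T.β v' x = lam K T.β v x
  plane : ∀ v v' u, Bad T.β v → Bad T.β v' → T.β v v' ≠ 0 → ∀ x,
    T.μ v u x = T.μ v u v * lam K T.β v' x + T.μ v u v' * lam K T.β v x

/-- symmetry of the bilinear expression of a set of vectors -/
def SymOn (T : Tor K V W V₀) (I : Finset V) : Prop :=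
  ∀ u u' : V →+ K, ∑ v ∈ I, u v • T.μ v u' = ∑ v ∈ I, u' v • T.μ v u

/-- facts on a split class `c`: the vectors with values in `{0, c}` form a plane -/
def PlaneFacts (T : Tor K V W V₀) (c : W) : Prop :=
  ∃ y₁ y₂ : V, c ≠ 0 ∧ T.β y₁ y₂ = c ∧ T.Val c y₁ ∧ T.Val c y₂ ∧
    (∀ v, T.Val c v → v = 0 ∨ v = y₁ ∨ v = y₂ ∨ v = y₁ + y₂) ∧
    T.InQ (fun x => lam K T.β y₁ (T.p x) * lam K T.β y₂ (T.p x))

/-- `1 + g` stabilises the space of quadratic forms `Q` (for sums of two products) -/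
def StabQ (T : Tor K V W V₀) (g : (V →+ K) →ₗ[K] (V →+ K)) : Prop :=
  ∀ a b c d : V →+ K,
    T.InQ (fun x => a (T.p x) * b (T.p x) + c (T.p x) * d (T.p x)) →
    T.InQ (fun x => (a + g a) (T.p x) * (b + g b) (T.p x)
      + (c + g c) (T.p x) * (d + g d) (T.p x))

end

/-- BAD. Proof. `q 0 = 0` and `β x x = 0` from `hq` with `y = x` (`hV₀`, `hW`, `hp`), symmetry from
`x + y = y + x`. For a bad `v` the map `β v` has values in `{0, c}`, `c ≠ 0` (nondeg) and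
`c + c = 0`, so `lam v` is additive. `noncomm`: `β v v' = β v' v` is the nonzero value of both.
`huniq`: let `t` be bad with `β v t ≠ 0`; then `lam v' t = lam v t = 1`, so `β v' t ≠ 0` and by
`noncomm` twice the nonzero values of `v`, `t`, `v'` agree (`= β v t`), hence `β v' = β v` and
`v' = v` (nondeg). `polar`: polarise `φ (q x) = lam v (p x) * μ v u (p x)` with `hq`, `hp`.
`comm`: in `polar` put `x = v'`: `φ (β v' y) = lam v y * μ v u v'` for all `y` as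
`lam v v' = 0`; the left side is `0` or `φ c'` with `c'` the value of `v'`, and is `0` when
`lam v' y = 0`; as `v` is bad (hT) some `lam v y = 1`, so `φ c' ≠ 0`, and
`lam v y = 1 ↔ lam v' y = 1`.
`plane`: if `μ v u = 0` trivial; else `polar` with `x = v'`: `φ (β v' y) = lam v v' * μ y +
lam v y * μ v'`, `lam v v' = 1`, `φ (β v' y) = φ c * lam v' y` with `c = β v v'` (noncomm); put
`y = v`: `φ c = μ v` (`lam v v = 0`, `lam v' v = 1`). -/
def S_BAD : Prop := ∀ (K : Type u) [Field K] [CharP K 2] (V W V₀ : Type) [AddCommGroup V]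
  [Fintype V] [AddCommGroup W] [AddCommGroup V₀] (T : Tor K V W V₀), BadFacts T

/-- SYMH (noncommuting block, not split). Put `I = blkH c`, `c` not split. Then
`μ v u = a_v(u) λ_v` for `v ∈ I` (BadFacts.plane with `μ v u v = 0`).
`u v = ∑_{v'} μ_{v'} u v` (h1). For `v ∈ I` and `v' ∉ I`, `v' ≠ 0`: `μ_{v'} u v = 0` [else `v'` is
bad (hT); if `β v' v ≠ 0` then `v'` is HTy with the same value, so `v' ∈ I`; if `β v' v = 0` then
`comm` gives `lam v = lam v'` and `huniq` (for `v`) gives `v' = v ∈ I`]. Hence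
`∑_{v∈I} (u v • μ v u' + u' v • μ v u) = ∑_{v∈I} ∑_{v'∈I∪0} (μ v' u v • μ v u' + μ v' u' v • μ v u)
= ∑_w S_w`, `w = v + v'`. For `w ∈ I`, `S_w` equals the full sum of `hcomm` at `w`: the missing
terms have `v ∉ I`, `v ≠ 0`, `v' = w + v ≠ 0` both bad, `μ_{v'} u v ≠ 0`: if `β v' v ≠ 0` both have
the value of `w` and are HTy, so `v ∈ I`; if `β v' v = 0` then `lam v = lam v'` (comm), so
`β w x` is `0` or the sum of the two values and `lam w = lam v` [w bad], `huniq` for `w` gives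
`v = w`, contradiction. For `w = 0`: `μ_v u v = a_v λ_v(v) = 0`. For `w ∉ I`, `w ≠ 0`, `v ∈ I`,
`v' ∈ I ∪ 0`: `v' ≠ 0`, `w` has value `c` and is bad, not HTy, so `β w v = 0`, and
`β v' v = β (w + v) v = 0`, so `μ_{v'} u v = a λ_{v'}(v) = 0`. -/
def S_SYMH : Prop := ∀ (K : Type u) [Field K] [CharP K 2] (V W V₀ : Type) [AddCommGroup V]
  [Fintype V] [AddCommGroup W] [AddCommGroup V₀] (T : Tor K V W V₀), BadFacts T →
  ∀ c : W, ¬ T.Spl c → SymOn T (T.blkH c)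

/-- PLN. Proof. Let `v` be HTy with value `c`, `μ v u v ≠ 0`, `t` bad with `β v t ≠ 0`
(`= c`, noncomm). `plane` for `(v, t)`: `μ = μ(v) λ_t + μ(t) λ_v`. If `t'` is another vector with
`Val c t'`, `β v t' ≠ 0`, then comparing gives `μ(v) (λ_t + λ_t') = (μ(t) + μ(t')) λ_v`, so
`λ_{t+t'} ∈ {0, λ_v}` (values 0, 1), so `t + t' ∈ {0, v}` (laminj). Hence the vectors with value
`c` are `0, v, t, v + t` (a vector commuting with `v`: add `t`). `InQ`: by hT
`φ (q x) = λ_v (μ(v) λ_t + μ(t) λ_v) = a λ_v λ_t + b λ_v` at `p x` (`λ² = λ`), `a ≠ 0`. Choose a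
`ZMod 2`-linear `ρ : K → ZMod 2` with `ρ a = 1`; `ρ ∘ φ` (cast to `K`) gives
`λ_v λ_t + ρ(b) λ_v ∈ Q`. If `ρ b = 0` take `y₁ = v, y₂ = t`; if `ρ b = 1` take `y₂ = v + t`
(`λ_v λ_{v+t} = λ_v + λ_v λ_t`). -/
def S_PLN : Prop := ∀ (K : Type u) [Field K] [CharP K 2] (V W V₀ : Type) [AddCommGroup V]
  [Fintype V] [AddCommGroup W] [AddCommGroup V₀] (T : Tor K V W V₀), BadFacts T →
  ∀ c : W, T.Spl c → PlaneFacts T c

/-- SYMP (split plane). `I = blkH c = {y₁, y₂, y₁ + y₂}`. As in SYMH the terms outside `I` vanish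
(`μ_{v'} u v = 0` for `v ∈ I`, `v' ∉ I ∪ 0`), `S_w` is the full sum of hcomm for `w ∈ I`, there is
no `w ∉ I ∪ 0`, and for `w = 0` put `S_0 = ∑_{v∈I} (μ_v u v • μ_v u' + μ_v u' v • μ_v u)`. To see
`S_0 = 0` use hϖ: for fixed `x` compute
`∑_{v ∈ I} (μ_v u' x * ∑_{v'} μ_{v'} u v * ϖ (v' + v) + μ_v u x * ∑_{v'} μ_{v'} u' v * ϖ (v' + v))
= 0` (every inner sum is `0` by hϖ) and regroup by `w = v + v'`: it is
`∑_w S_w(x) ϖ(w) = S_0(x) ϖ(0) = S_0(x)`. -/
def S_SYMP : Prop := ∀ (K : Type u) [Field K] [CharP K 2] (V W V₀ : Type) [AddCommGroup V]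
  [Fintype V] [AddCommGroup W] [AddCommGroup V₀] (T : Tor K V W V₀), BadFacts T →
  ∀ c : W, PlaneFacts T c → SymOn T (T.blkH c)

/-- SYML (commuting block). `I = blkL l`; if `I` is empty trivial. `I ∪ 0` is closed under
addition: if `v, v' ∈ I`, `v ≠ v'`, then `β (v + v') x` is `0` or the sum of the two values, which
is not `0` (else `v = v'`), so `v + v'` is bad with `lam = l`, and it commutes with all bad
vectors. For `v ∈ I`, `v' ∉ I ∪ 0`: `μ_{v'} u v = 0` [else `v'` bad, commutes with `v`, so by `comm`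
`lam v = lam v'`; `v'` is not HTy (huniq for `v'` would give `v = v'`), so LTy, `v' ∈ I`].
For `w ∈ I` the terms of hcomm with `v ∉ I` vanish: `v, v' = w + v` bad (`μ_v u' ≠ 0`,
`μ_{v'} u v ≠ 0`); if `β v' v ≠ 0` then `β w v = β v' v ≠ 0` contradicts LTy of `w`; so
`β v' v = 0`, `lam v = lam v'` (comm), `lam w = lam v` and `v` is LTy as before (huniq: an HTy `v`
equals `w`). Then as in SYMP (with hϖ for `w = 0`). -/
def S_SYML : Prop := ∀ (K : Type u) [Field K] [CharP K 2] (V W V₀ : Type) [AddCommGroup V]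
  [Fintype V] [AddCommGroup W] [AddCommGroup V₀] (T : Tor K V W V₀), BadFacts T →
  ∀ l : V → K, SymOn T (T.blkL l)

/-- GAM. Proof. Every `ζ` is `sq u` for a unique `u` (square roots in `K`, characteristic two);
`M(u,u') = ∑_{v∈I} u v • μ v u'` is bilinear and symmetric, so `M(u,u)` is additive in `u` and
`M(a u, a u) = a² M(u,u)`. -/
def S_GAM : Prop := ∀ (K : Type u) [Field K] [CharP K 2] (_hs : ∀ a : K, ∃ b, b ^ 2 = a)
  (V W V₀ : Type) [AddCommGroup V]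
  [Fintype V] [AddCommGroup W] [AddCommGroup V₀] (T : Tor K V W V₀) (I : Finset V),
  SymOn T I → ∃ Γ : (V →+ K) →ₗ[K] (V →+ K), ∀ u, Γ (sq u) = T.bq I u

/-- INJ. Proof. The functions `v ↦ lam v x` (`x ∈ V`) on the elementary abelian group
`Y = {v | Val c v}` are additive, `{0,1}`-valued and separate the points (laminj), so they span
`Hom(Y, ZMod 2)` over `ZMod 2` and hence `Hom(Y, K)` over `K`; apply this to `θ` restricted
to `Y`. -/
def S_INJ : Prop := ∀ (K : Type u) [Field K] [CharP K 2] (V W V₀ : Type) [AddCommGroup V]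
  [Fintype V] [AddCommGroup W] [AddCommGroup V₀] (T : Tor K V W V₀), BadFacts T →
  ∀ (c : W) (a : V → K), (∀ v, a v ≠ 0 → T.Val c v) → (∀ x, ∑ v, a v * lam K T.β v x = 0) →
  ∀ θ : V →+ K, ∑ v, a v * θ v = 0

/-- TRV (transvections; pure linear algebra). `Y` a subspace of the dual of `U`,
`lamb : Y → U` linear with `y (lamb y) = 0`, `e, f : U → Y` transposes of each other with
`e + f + e ∘ lamb ∘ f = 0`, image of `f` in `Y'`. Then `1 + lamb ∘ e` is a product of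
`1 + y ⊗ lamb y` with `y ∈ Y'`. Proof by strong induction on `finrank (range e)`. If `e = 0` done.
Case A: some `η` with `(e η)(η) ≠ 0`; choose `κ` with `κ² (e η)(η) = 1`, `y = κ f η ∈ Y'`. Then
`y + e (lamb y) = κ e η` (relation), and `(1 + lamb e)(1 + y ⊗ lamb y) = 1 + lamb e'` with
`e' ζ = e ζ + y(ζ)(y + e lamb y) = e ζ + κ² (e ζ)(η) e η` (`(f η)(ζ) = (e ζ)(η)`), with transpose
`f' ζ = f ζ + (y + e lamb y)(ζ) y`, image of `f'` in `Y'`; relation for `e', f'`: use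
`y'(lamb y) = y(lamb y')`. `e' η = 0`, `e η ≠ 0`, range e' ≤ range e, so the rank drops (range e'
is in the range of e; ker e' contains ker e and η). Since
`(1 + y ⊗ lamb y)² = 1`, `1 + lamb e = (1 + lamb e')(1 + y ⊗ lamb y)`.
Case B: `(e η)(η) = 0` for all `η`, `e ≠ 0`: then `e = f`, `e lamb f = 0`; take `y = e η₀ ≠ 0`
(`∈ Y'`), `e lamb y = 0`, `e' ζ = e ζ + y(ζ) y`, range e' ≤ range e, and some `η` has `y(η) ≠ 0`, so
`(e' η)(η) = y(η)² ≠ 0`: apply the step of case A to `e'` (rank drops below that of e). -/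
def S_TRV : Prop := ∀ (K : Type u) [Field K] [CharP K 2] (_hs : ∀ a : K, ∃ b, b ^ 2 = a)
  (U : Type u) [AddCommGroup U] [Module K U] [FiniteDimensional K U]
  (Y : Submodule K (Module.Dual K U)) (lamb : Y →ₗ[K] U)
  (_halt : ∀ y : Y, (y : Module.Dual K U) (lamb y) = 0)
  (e f : U →ₗ[K] Y)
  (_hef : ∀ ζ θ, (e ζ : Module.Dual K U) θ = (f θ : Module.Dual K U) ζ)
  (_hrel : ∀ ζ, e ζ + f ζ + e (lamb (f ζ)) = 0)
  (Y' : Submodule K Y) (_hY' : ∀ ζ, f ζ ∈ Y'),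
  (1 + lamb ∘ₗ e : Module.End K U) ∈ Submonoid.closure
    {N : Module.End K U | ∃ y ∈ Y', N = 1 + (y : Module.Dual K U).smulRight (lamb y)}

/-- HAM (noncommuting block, not split). Uses S_TRV, S_INJ. Proof. `I = blkH c`,
`μ v u = a_v(u) λ_v` for `v ∈ I` with `a_v` linear in `u`. Fix additive `ψ : W → K` with `ψ c = 1`
and put `lamb y : x ↦ y (ψ ∘ β x)` for `y` in the dual of `U = (V →+ K)`; `lamb (ev_v) = λ_v` for
`Val c v`. `Y = span {ev_v : Val c v}`; `y (lamb y) = 0` on `Y` (alternating on the spanning set and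
symmetric). `f ζ = ∑_{v∈I} a_v(ζ) ev_v`, `e ζ = ∑_{v∈I} ζ(v) a_v` (in the dual of `U`),
`(e ζ)(θ) = (f θ)(ζ)`. Symmetry `∑_I (u v a_v(u') + u' v a_v(u)) λ_v = 0` and INJ give: the
trilinear form `S(ξ,η,θ) = ∑_I a_v(η) ξ(v) θ(v)` is totally symmetric. Hence
`e (sq u) = ∑_I u(v) a_v(u) ev_v ∈ Y` [apply to `θ`: `∑ u(v) a_v(u) θ(v) = S(u,u,θ) = S(u,θ,u) =
∑ a_v(θ) u(v)²`], and `Γ = lamb ∘ e` as `Γ (sq u) = ∑_I u v • μ v u = ∑_I u(v) a_v(u) λ_v`.
Relation `e + f + e lamb f = 0`: for `w ∈ I` hcomm at `w` is (terms outside the block vanish as in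
SYMH; `μ_0` is the component at `0`)
`[μ_0(u)(w) a_w(u') + μ_0(u')(w) a_w(u) + ∑_{v+v'=w, v,v'∈I} β_c(v,v') a_{v'}(u) a_v(u')] λ_w = 0`
with `β_c(v,v') = λ_v(v')`, the bracket is `0`; sum over `w ∈ I` (pairs with `v + v' ∉ I` have
`β_c(v,v') = 0`) and use `μ_0(u)(w) = u(w) + ∑_{v'∈I} a_{v'}(u) β_c(v',w)`:
`u(f u') + u'(f u) + β_c(f u, f u') = 0` where `u(f u') = ∑ a_v(u') u(v) = (f u')(u)` and
`β_c(f u, f u') = (f u')(lamb (f u)) = (e lamb f u)(u')`. So `(f u')(u) + (f u)(u') +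
(e lamb f u)(u') = 0`, i.e. `e u + f u + e lamb f u = 0`. `f` has values in
`Y' = span {ev_v : v ∈ I, μ_v ≠ 0}`; for `y = ∑ b_v ev_v ∈ Y'` the operator `1 + y ⊗ lamb y` is
`Trans` with coefficients `b`: if `μ_v(u) = a λ_v ≠ 0` then hT gives `φ (q x) = a λ_v(p x)`, so
`λ_v ∈ Q`. -/
def S_HAM : Prop := ∀ (K : Type u) [Field K] [CharP K 2] (_hs : ∀ a : K, ∃ b, b ^ 2 = a)
  (V W V₀ : Type) [AddCommGroup V]
  [Fintype V] [AddCommGroup W] [AddCommGroup V₀] (T : Tor K V W V₀), BadFacts T →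
  ∀ c : W, ¬ T.Spl c → SymOn T (T.blkH c) → ∀ Γ : (V →+ K) →ₗ[K] (V →+ K),
  (∀ u, Γ (sq u) = T.bq (T.blkH c) u) →
  (1 + Γ : Module.End K (V →+ K)) ∈ Submonoid.closure
    {N : Module.End K (V →+ K) | T.Trans N}

/-- LG (commuting block). Proof. If `blkL l` is empty then `Γ = 0`. Else choose `x₀` with
`l x₀ = 1`. Let `ψ : W →+ K`, `x ∈ V`. For `v ∈ blkL l`: `ψ (β x v) = l x * ψ (β x₀ v)` (both are
`0` or `ψ` of the value of `v`, `β x v = β v x`). A functional `ζ` vanishing on the block satisfies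
`Γ ζ = 0` (`ζ = sq u`, `u` vanishes on the block). So
`Γ (ψ ∘ β x) = l x • Γ (ψ ∘ β x₀)`. Put `ψ ∘ β x₀ = sq u`, `τ = Γ (sq u) = ∑_{v∈I} u v • μ v u`;
by hT for every `v` with `μ v u ≠ 0`: `φ_v (q x) = l (p x) * μ v u (p x)`. So
`φ = ∑ u v φ_v` satisfies `φ (q x) = l (p x) * τ (p x) = Γ (ψ ∘ β (p x)) (p x)`. -/
def S_LG : Prop := ∀ (K : Type u) [Field K] [CharP K 2] (_hs : ∀ a : K, ∃ b, b ^ 2 = a)
  (V W V₀ : Type) [AddCommGroup V]
  [Fintype V] [AddCommGroup W] [AddCommGroup V₀] (T : Tor K V W V₀), BadFacts T →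
  ∀ (l : V → K) (Γ : (V →+ K) →ₗ[K] (V →+ K)), (∀ u, Γ (sq u) = T.bq (T.blkL l) u) → T.InG Γ

/-- PG (split plane). Proof. `I = {y₁, y₂, y₃ = y₁ + y₂}`, `λ_i = λ_{y_i}`, `λ_3 = λ_1 + λ_2`,
`λ_1(y₁) = 0, λ_1(y₂) = 1, λ_2(y₁) = 1, λ_2(y₂) = 0`. By `plane` every `μ_i := μ_{y_i}(u)` is
`A_i λ_1 + B_i λ_2` with `A_i, B_i` linear in `u` (`A_i = μ_i(y₂)`, `B_i = μ_i(y₁)`). `Γ ζ` depends
only on `ζ(y₁), ζ(y₂)`: `Γ ζ = ζ(y₁) (P λ_1 + D λ_2) + ζ(y₂) (D' λ_1 + R λ_2)`. For `ψ`, `x`: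
`ψ ∘ β x` has value `ψ(c) λ_i(x)` at `y_i`, so `Γ(ψ ∘ β x)(x) = ψ(c) (P λ_1(x)² + R λ_2(x)² +
(D + D') λ_1(x) λ_2(x))`; as `λ_1 λ_2 ∈ Q` it suffices: `P λ_1² + R λ_2² ∈ Q` (functions at `p x`;
`λ² = λ` as functions). Let `QQ = {(s,t) ∈ K² : s λ_1 + t λ_2 ∈ Q}`, a subspace spanned by vectors
over `ZMod 2` [apply `ZMod 2`-linear maps `K → ZMod 2`]: so `QQ` is `0`, `K(1,0)`, `K(0,1)`,
`K(1,1)` or `K²`. By hT `(A_1, 0) ∈ QQ`, `(0, B_2) ∈ QQ`, `(A_3, B_3) ∈ QQ` (multiply out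
`λ_i μ_i` and use `λ_1 λ_2 ∈ Q`). Symmetry of `M(ξ,η) = ∑ ξ(y_i) μ_i(η)`: the coefficient of
`λ_1` (value at `y₂`) is `ξ(y₁)(A_1 + A_3)(η) + ξ(y₂)(A_2 + A_3)(η)`, symmetric, so
`(A_1 + A_3)(η) = α η(y₁) + δ η(y₂)` with `P = α`; same for `λ_2`:
`(B_2 + B_3)(η) = .. + R η(y₂)`. If `QQ` is `0, K(1,0), K(0,1)` or `K²` then `(P,R) ∈ QQ`: e.g.
`QQ = K(1,0)`: `B_2 = B_3 = 0` so `R = 0`; `QQ = 0`: also `A_1 = A_3 = 0`, `P = 0`.
If `QQ = K(1,1)`: need `P = R`. `(1 + g) λ_1 = (1 + D') λ_1 + R λ_2`,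
`(1 + g) λ_2 = P λ_1 + (1 + D) λ_2` (g and Γ agree on the `λ_i`; as functions on `V`).
StabQ for `λ_1 λ_2` gives `(1 + D') P λ_1 + (1 + D) R λ_2 ∈ Q`, so `(1 + D') P = (1 + D) R`;
StabQ for `(λ_1 + λ_2)²` gives `(1 + D' + P)² = (1 + D + R)²`, so `P + R = D + D'`; injectivity of
`1 + g` gives `(1 + D)(1 + D') + P R ≠ 0`. Put `s = P + R = D + D'`: then `s (1 + P + D) = 0`; if
`s ≠ 0` then `P = 1 + D`, `R = 1 + D'` and the determinant is `0`. So `P = R`. -/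
def S_PG : Prop := ∀ (K : Type u) [Field K] [CharP K 2] (_hs : ∀ a : K, ∃ b, b ^ 2 = a)
  (V W V₀ : Type) [AddCommGroup V]
  [Fintype V] [AddCommGroup W] [AddCommGroup V₀] (T : Tor K V W V₀), BadFacts T →
  ∀ c : W, PlaneFacts T c → SymOn T (T.blkH c) → ∀ Γ g : (V →+ K) →ₗ[K] (V →+ K),
  (∀ u, Γ (sq u) = T.bq (T.blkH c) u) → StabQ T g → (∀ u, u + g u = 0 → u = 0) →
  (∀ (y : V) (ζ : V →+ K), T.Val c y → (∀ x, ζ x = lam K T.β y x) → g ζ = Γ ζ) → T.InG Γ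

/-- BLK (assembly of section 1). From S_BAD, S_SYMH, S_PLN, S_SYMP, S_SYML, S_GAM, S_HAM, S_LG,
S_PG. Proof. Every `v ≠ 0` with `μ v ≠ 0` is bad, hence in exactly one `blkH c` (`c` ranging over
`W`, finite image) or `blkL l`. Let `Γ_I` be the operators of GAM, so `g = ∑ Γ_I` (compare on
`sq u`). A functional vanishing on the block `I` is killed by `Γ_I`; the values of `Γ_{blkH c}` are
combinations of `λ_v`, `v ∈ blkH c` (`plane`), which vanish on all other blocks (bad vectors with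
different values commute, LTy vectors commute with all bad vectors). So `Γ_I Γ_{blkH c} = 0` for
`I ≠ blkH c`. Let `X` be the sum of the `Γ_I` over the commuting and the split blocks (InG is closed
under addition; for PG: on `λ_y`, `Val c y`, `g` and `Γ` agree as the other `Γ_I` vanish there), `Y`
the sum over the nonsplit `blkH c`; `1 + g = (1 + X)(1 + Y)` and `1 + Y = ∏ (1 + Γ_{blkH c})`. -/
def S_BLK : Prop := ∀ (K : Type u) [Field K] [CharP K 2] (_hs : ∀ a : K, ∃ b, b ^ 2 = a)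
  (V W V₀ : Type) [AddCommGroup V]
  [Fintype V] [AddCommGroup W] [Finite W] [AddCommGroup V₀] (T : Tor K V W V₀)
  (g : (V →+ K) →ₗ[K] (V →+ K)), (∀ u, g (sq u) = T.bq (Tor.nz V) u) →
  StabQ T g → (∀ u, u + g u = 0 → u = 0) →
  ∃ N X : Module.End K (V →+ K), N ∈ Submonoid.closure {N : Module.End K (V →+ K) | T.Trans N} ∧
    T.InG X ∧ 1 + g = (1 + X) * N

end Q12.MI2
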