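import Pool.Agent.Q12.MI2.Stm

/-!
# Project MI2, section 2: polynomial paths in the stabiliser of a quadratic map, and
specialisation (this replaces the theorem of Lang).
-/

set_option autoImplicit false

namespace Q12.MI2

open Finset Polynomial Q21.MI

universe u v w

/-- QE (extension of quadratic identities). Proof. Put `x = e_i`: `D i i = 0`; `x = e_i + e_j`:
`D i j + D j i = 0`. Hence over `R` (characteristic two) the double sum vanishes. -/
def S_QE : Prop := ∀ (K : Type u) [Field K] [CharP K 2] (ι : Type) [Fintype ι] [DecidableEq ι]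
  (D : Matrix ι ι K), (∀ x : ι → ZMod 2, ∑ i, ∑ j, D i j * cst K x i * cst K x j = 0) →
  ∀ (R : Type u) [CommRing R] [Algebra K R] (x : ι → R),
    ∑ i, ∑ j, algebraMap K R (D i j) * x i * x j = 0

/-- PM (products of paths). Multiply the two paths. -/
def S_PM : Prop := ∀ (K : Type u) [Field K] (ι κ : Type) [Fintype ι] [DecidableEq ι] [Fintype κ]
  [DecidableEq κ] (b : ι → ι → κ → ℤ) (M₁ M₂ : Matrix ι ι K),
  PathTo K b M₁ → PathTo K b M₂ → PathTo K b (M₁ * M₂)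

/-- TP (elementary factors are joined to the identity). Let `c`, `a` be the data of
`T.Trans N`, `lx(x) = ∑_v a_v lam v x` (additive in `x`: `lam v` is additive for `a_v ≠ 0`, and
`lx = ∑_i lx(e_i) crd i`), `y ∈ K^{ι₁}`, `y_i = ∑_v a_v v_i`. Then
`(mat N) x = x + lx(x) y` for `x ∈ K^{ι₁}` (`lx(x) := ∑ lx(e_i) x_i`). Take
`M(t) = fromBlocks (1 + t (mat N - 1)) 0 0 1`, i.e. `M(t) x = x + t lx(x₁) (y, 0)`, `x₁` the part in
`ι₁`. Then `q(M(t)x) = q(x) + t lx(x₁) β(x, (y,0)) + t² lx(x₁)² q((y,0))`, where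
`β(x, (y,0)) = ∑_v a_v β(x, (v,0)) = lx(x₁) c` (quadratic identities: true for `x` over `ZMod 2` by
the definition of `lam` and CoordTor + hq, hence over `K[X]`, QE), and `lx(x₁)² = φ_K(q(x))` for a
linear `φ_K : K^κ → K`: for every `v` with `a_v ≠ 0`, `lam v ∈ Q` as a function gives
`lam v (x₁)² = φ_v(q(x))` on points over `ZMod 2` (values 0, 1), so
`(∑ a_v lam v)² = ∑ a_v² lam v² = (∑ a_v² φ_v) ∘ q`, extended to `K[X]` by QE. So
`C(t) w = w + φ_K(w) (t c + t² q((y,0)))`. -/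
def S_TP : Prop := ∀ (K : Type u) [Field K] [CharP K 2] (ι₁ ι₂ κ : Type) [Fintype ι₁]
  [DecidableEq ι₁] [Fintype ι₂] [DecidableEq ι₂] [Fintype κ] [DecidableEq κ]
  (b : (ι₁ ⊕ ι₂) → (ι₁ ⊕ ι₂) → κ → ℤ)
  (T : Tor K (ι₁ → ZMod 2) (κ → ZMod 2) (ι₁ ⊕ ι₂ → ZMod 2)), BadFacts T → CoordTor b T →
  ∀ N : Module.End K ((ι₁ → ZMod 2) →+ K), T.Trans N →
  PathTo K b (Matrix.fromBlocks (mat N) 0 0 1)

/-- GP (the Lie algebra factor is joined to the identity). `F = fromBlocks (mat (1 + X)) 0 Cc Dd`,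
`q(F x) = C₁ q(x)`. Put `F' = F - 1 = fromBlocks (mat X) 0 Cc (Dd - 1)`. By InG, with
`ψ_k = crd k` on `κ → ZMod 2`: `φ_k (q x) = X (ψ_k ∘ β (p x)) (p x)` for `x` over `ZMod 2`, and
the right side is the `k`-th coordinate of `β(x, F' x)` (bilinear extension; `β` only sees the
`ι₁` part; `(mat X x)_i = ∑_j X(crd i)(e_j) x_j`). So `β(x, F'x) = E q(x)` for a `κ × κ` matrix `E`
over `K`, first on `ZMod 2`-points, then over `K[X]` by QE. Path: `M(t) = 1 + t F'`,
`q(M(t) x) = q(x) + t β(x, F'x) + t² q(F'x)`, `q(F'x) = q(Fx) - q(x) - β(x,F'x) = (C₁ - 1 - E) q(x)`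
(over `K`, hence over `K[X]` by QE). `C(t) = 1 + t E + t² (C₁ - 1 - E)`. -/
def S_GP : Prop := ∀ (K : Type u) [Field K] [CharP K 2] (ι₁ ι₂ κ : Type) [Fintype ι₁]
  [DecidableEq ι₁] [Fintype ι₂] [DecidableEq ι₂] [Fintype κ] [DecidableEq κ]
  (b : (ι₁ ⊕ ι₂) → (ι₁ ⊕ ι₂) → κ → ℤ)
  (T : Tor K (ι₁ → ZMod 2) (κ → ZMod 2) (ι₁ ⊕ ι₂ → ZMod 2)), BadFacts T → CoordTor b T →
  ∀ (X : Module.End K ((ι₁ → ZMod 2) →+ K)) (Cc : Matrix ι₂ ι₁ K) (Dd : Matrix ι₂ ι₂ K)
    (C₁ : Matrix κ κ K), T.InG X →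
  InStab b (Matrix.fromBlocks (mat (1 + X)) 0 Cc Dd) C₁ →
  PathTo K b (Matrix.fromBlocks (mat (1 + X)) 0 Cc Dd)

/-- FAC (assembly of the path). From S_PM, S_TP, S_GP. Proof. `mat` is an anti-homomorphism:
`mat (N N') = mat N' * mat N`, `mat 1 = 1`. Induction on `N` in the closure: the matrix
`F_N = fromBlocks (mat N) 0 0 1` satisfies `PathTo`, is invertible (each elementary factor has
square one: `lx(y) = 0`; or use det 1; or the inverse path) and its inverse is in the stabiliser.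
Then `M₁ = F_N * F` with `F = F_N⁻¹ * M₁ = fromBlocks (mat (1 + X)) 0 Cc' Dd'` since
`mat (1+g) = mat N * mat (1 + X)`, and `F` is in the stabiliser (the `C` of `F_N` is invertible:
`F_N² = 1` for elementary factors and `q` spans; or take for the inverse of the product of
elementary factors the product in the opposite order). GP for `F`, PM. -/
def S_FAC : Prop := ∀ (K : Type u) [Field K] [CharP K 2] (ι₁ ι₂ κ : Type) [Fintype ι₁]
  [DecidableEq ι₁] [Fintype ι₂] [DecidableEq ι₂] [Fintype κ] [DecidableEq κ]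
  (b : (ι₁ ⊕ ι₂) → (ι₁ ⊕ ι₂) → κ → ℤ)
  (T : Tor K (ι₁ → ZMod 2) (κ → ZMod 2) (ι₁ ⊕ ι₂ → ZMod 2)), BadFacts T → CoordTor b T →
  ∀ (g N X : Module.End K ((ι₁ → ZMod 2) →+ K)) (Cc : Matrix ι₂ ι₁ K) (Dd : Matrix ι₂ ι₂ K)
    (C₁ : Matrix κ κ K),
  N ∈ Submonoid.closure {N : Module.End K ((ι₁ → ZMod 2) →+ K) | T.Trans N} → T.InG X →
  1 + g = (1 + X) * N →
  InStab b (Matrix.fromBlocks (mat (1 + g)) 0 Cc Dd) C₁ →
  PathTo K b (Matrix.fromBlocks (mat (1 + g)) 0 Cc Dd)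

/-- LNG (theorem of Lang for `GL_n` in characteristic two, elementary). Proof. Consider the
semilinear map `φ(v) = A⁻¹ v²` (`v²` entrywise) on `L^n`; we want `n` linearly independent fixed
vectors. Abstract version: `E` a finite dimensional `L`-space, `φ : E → E` additive, bijective (or
injective) with `φ(a v) = a² φ(v)`; then `E` has a basis of fixed vectors. Induction on the
dimension. A nonzero fixed vector exists: take `v ≠ 0`, `m` least with
`φ^m v = ∑_{i<m} a_i φ^i v`; `w = ∑ x_i φ^i v` is fixed iff `x_0 = x_{m-1}² a_0`,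
`x_i = x_{i-1}² + x_{m-1}² a_i`; so `x_{m-1}` has to be a nonzero root of a polynomial
`∑_{i} a_i^{2^{m-1-i}} x^{2^{m-i}} - x`, which is separable of degree at least two as not all `a_i`
are `0` (`φ^m v ≠ 0`), so a nonzero root exists. Then pass to `E/Lw`; a fixed vector of the quotient
lifts: `φ u = u + a w`, replace `u` by `u + x w` with `x² + x + a = 0`. -/
def S_LNG : Prop := ∀ (L : Type u) [Field L] [IsAlgClosed L] [CharP L 2] (n : Type) [Fintype n]
  [DecidableEq n] (A : Matrix n n L), A.det ≠ 0 →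
  ∃ P : Matrix n n L, P.det ≠ 0 ∧ P.map (fun a => a ^ 2) = A * P

/-- SPC (specialisations of the algebraic closure of `K(t)`). Proof. `L` an algebraic closure of the
fraction field of `K[X]`, `O` the integral closure of `K[X]` in `L`. For `a = 0, 1` the kernel of
`eval a` is maximal in `K[X]`; a maximal ideal of `O` over it exists
(Ideal.exists_ideal_over_maximal_of_isIntegral), the residue field is integral over `K`, so equal to
`K` as `K` is algebraically closed. -/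
def S_SPC : Prop := ∀ (K : Type u) [Field K] [IsAlgClosed K] [CharP K 2],
  ∃ (L : Type u) (_ : Field L) (_ : IsAlgClosed L) (_ : CharP L 2) (j : K[X] →+* L)
    (O : Subring L) (hj : ∀ a, j a ∈ O) (s : Fin 2 → O →+* K),
    Function.Injective j ∧ (∀ x : L, j.IsIntegralElem x → x ∈ O) ∧
    (∀ a : K[X], s 0 ⟨j a, hj a⟩ = a.eval 0) ∧ (∀ a : K[X], s 1 ⟨j a, hj a⟩ = a.eval 1)

/-- PL (path lemma). From S_LNG, S_SPC. Proof. Let `M, C` be the path, `C₁ = C(1)`. `det M(0) = 1`,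
so `det M ≠ 0`; `q` spans `K^κ` (hspan and extension of scalars), `C₁ q(x) = q(M₁ x)` and `M₁` is
invertible, so `C₁` is invertible; `det C(0) = 1`. LNG over `L` (for `j(M)`, `j(C)`): `P, R` over
`L` with `P² = M P`, `R² = C R` (entrywise squares), invertible. The entries of `P` are integral
over `K[X]`: the `K[X]`-module generated by the squarefree monomials in the entries `a_1..a_n` of a
column is closed under multiplication (`a_i² = ∑ M_ij a_j`) [or: each `a_i` lies in a finitely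
generated subalgebra which is a finite module]. So `P, R` have entries in `O`. `(det P)² =
det M det P`, so `det P = det M`, `det R = det C`. For `x ∈ (ZMod 2)^ι` put
`y(x) = R⁻¹ q(P x) ∈ L^κ`; the entrywise square of `y` is `(C R)⁻¹ q(M P x) = R⁻¹ C⁻¹ C q(P x) = y`,
so `y(x) ∈ (ZMod 2)^κ`, `q(P x) = R y(x)`. Apply `s 0` and `s 1`: `P_0, R_0` with `P_0² = P_0`
(entries in `ZMod 2`, invertible) and `q(P_0 x) = R_0 y(x)`; `P_1, R_1` with `P_1² = M₁ P_1`,
`R_1² = C₁ R_1`, `q(P_1 x) = R_1 y(x)`. Take `P_1 P_0⁻¹`, `R_1 R_0⁻¹`: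
`q(P_1 P_0⁻¹ x) = R_1 y(P_0⁻¹ x) = R_1 R_0⁻¹ q(P_0 P_0⁻¹ x)`. -/
def S_PL : Prop := ∀ (K : Type u) [Field K] [IsAlgClosed K] [CharP K 2] (ι κ : Type) [Fintype ι]
  [DecidableEq ι] [Fintype κ] [DecidableEq κ] (b : ι → ι → κ → ℤ) (M₁ : Matrix ι ι K),
  Submodule.span (ZMod 2) (Set.range (qd b : (ι → ZMod 2) → κ → ZMod 2)) = ⊤ →
  M₁.det ≠ 0 → PathTo K b M₁ →
  ∃ (P : Matrix ι ι K) (R C₁ : Matrix κ κ K), P.det ≠ 0 ∧ R.det ≠ 0 ∧ InStab b M₁ C₁ ∧
    P.map (fun a => a ^ 2) = M₁ * P ∧ R.map (fun a => a ^ 2) = C₁ * R ∧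
    ∀ x : ι → ZMod 2, qd b (P.mulVec (cst K x)) = R.mulVec (cst K (qd b x))

/-! ## Section 3: the two group bases -/

/-- XM. Both sides are bilinear; check on `B.b g`, `B.b h` with `ξ_mul`, `ψ_mul` (the casts are ring
homomorphisms). -/
def S_XM : Prop := ∀ (K : Type u) [Field K] [CharP K 2] (A : Type v) [Ring A] [Algebra K A]
  (G : Type w) [Group G] (ι₁ ι₂ κ : Type) [Fintype ι₁] [DecidableEq ι₁] [Fintype ι₂]
  (B : GBasis K A G) (c : Coord G ι₁ ι₂ κ) (a a' : A),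
  Xl B c (a * a') = B.aug a • Xl B c a' + B.aug a' • Xl B c a ∧
  Pl B c (a * a') = B.aug a • Pl B c a' + B.aug a' • Pl B c a + bil c.b (Xl B c a) (Xl B c a')

end Q12.MI2
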