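import Pool.Agent.Q12.MI2.Stm2

/-!
# Project MI2, section 3: two group bases of one algebra, and section 4: groups.
-/

set_option autoImplicit false

namespace Q12.MI2

open Finset Polynomial Q21.MI

universe u v w w'

/-! ## Section 3: two group bases `B` (of `G`, with coordinates `c`) and `C` (of `H`) of `A` -/

/-- CLS (class functions against central elements). Proof. The coefficients of a central `a` are
constant on conjugacy classes (GBasis.repr_conj). So the summand `F(h) = a_h f(h)` is a class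
function; the conjugacy classes of a finite 2-group have size a power of two, and are singletons
exactly for central `h`; in characteristic two a class of even size contributes `0`. (Group the sum
by orbits of the conjugation action; orbit sizes divide the order of `H`.) -/
def S_CLS : Prop := ∀ (K : Type u) [Field K] [CharP K 2] (A : Type v) [Ring A] [Algebra K A]
  (H : Type w) [Group H] [Fintype H] (C : GBasis K A H), IsPGroup 2 H →
  ∀ a : A, (∀ k, C.b k * a = a * C.b k) → ∀ f : H → K, (∀ k h, f (k * h * k⁻¹) = f h) →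
  (∀ h, h ∈ Subgroup.center H → f h = 0) → ∑ h, C.b.repr a h * f h = 0

/-- FORM. Uses S_XM. Proof. `X_h = Xl B c (C.b h)`, `Ψ_h = Pl B c (C.b h)`; by XM and `aug = 1` on
both bases `X_{hk} = X_h + X_k`, `Ψ_{hk} = Ψ_h + Ψ_k + bil b X_h X_k`. `S = X(H)` is a finite
additive subgroup of `K^ι` (`ι = ι₁ ⊕ ι₂`) which spans (`Xl` is surjective, `ξ` is surjective by
`c.bij`). `ZMod 2`-independent elements of `S` are `K`-independent: for an additive
`χ : S → ZMod 2` the linear functional `χ_l : A → K`, `C.b h ↦ χ (X_h)`, satisfies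
`χ_l (a a') = aug a χ_l a' + aug a' χ_l a`, so `g ↦ χ_l (B.b g)` is additive on `G`, hence kills
squares, hence kills `{g | ξ g = 0}` (these are products of squares: `c.span`, `ψ (g*g) = qd b (ξ g)`
and `c.bij`), hence `χ_l (B.b g) = ∑_i χ_i ξ(g)_i`, i.e. `χ_l = ∑ χ_i (Xl ·)_i`, so `χ` is the
restriction of a `K`-linear functional; use dual bases. So a `ZMod 2`-basis of `S` has `|ι|`
elements: the columns of `P₀`. Now `|H| = |G| = 2^(|ι|+|κ|)` (finrank A), so `ker X` has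
`2^|κ|` elements; `Ψ` is additive on `ker X`; `Ψ_{h h} = qd b X_h` and `X_{hh} = 0`, so
`qd b s ∈ Ψ(ker X)` for all `s ∈ S`, and these span `K^κ` (polarisation: the span contains
`qd b x` for all `x ∈ K^ι`, use `c.span`). So the `ZMod 2`-space `Ψ(ker X)` has dimension at least
`|κ|`, so `Ψ` is injective on `ker X` and the image has a basis of `|κ|` elements spanning `K^κ`:
the columns of `R₀`. -/
def S_FORM : Prop := ∀ (K : Type u) [Field K] [CharP K 2] (A : Type v) [Ring A] [Algebra K A]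
  (G : Type w) [Group G] [Finite G] (H : Type w') [Group H] (ι₁ ι₂ κ : Type) [Fintype ι₁]
  [DecidableEq ι₁] [Fintype ι₂] [DecidableEq ι₂] [Fintype κ] [DecidableEq κ]
  (B : GBasis K A G) (C : GBasis K A H) (c : Coord G ι₁ ι₂ κ), B.aug = C.aug →
  ∃ (P₀ : Matrix (ι₁ ⊕ ι₂) (ι₁ ⊕ ι₂) K) (R₀ : Matrix κ κ K), P₀.det ≠ 0 ∧ R₀.det ≠ 0 ∧
    (∀ h, ∃ x : ι₁ ⊕ ι₂ → ZMod 2, Xl B c (C.b h) = P₀.mulVec (cst K x)) ∧
    (∀ x : ι₁ ⊕ ι₂ → ZMod 2, ∃ h, Xl B c (C.b h) = P₀.mulVec (cst K x)) ∧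
    (∀ h, Xl B c (C.b h) = 0 → ∃ y : κ → ZMod 2, Pl B c (C.b h) = R₀.mulVec (cst K y)) ∧
    (∀ y : κ → ZMod 2, ∃ h, Xl B c (C.b h) = 0 ∧ Pl B c (C.b h) = R₀.mulVec (cst K y)) ∧
    (∀ h, Xl B c (C.b h) = 0 → Pl B c (C.b h) = 0 → h = 1)

/-- PR (the projection `A → K[G/Z(G)]`, as functions on `V = (ZMod 2)^{ι₁}`). All by linearity on
the basis `B.b g`; `x1` is a homomorphism. The fourth statement follows from the first (commutative
convolution). -/
def S_PR : Prop := ∀ (K : Type u) [Field K] [CharP K 2] (A : Type v) [Ring A] [Algebra K A]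
  (G : Type w) [Group G] [Fintype G] (ι₁ ι₂ κ : Type) [Fintype ι₁]
  [DecidableEq ι₁] [Fintype ι₂] (B : GBasis K A G) (c : Coord G ι₁ ι₂ κ),
  (∀ a a' w, pr B c (a * a') w = ∑ v, pr B c a v * pr B c a' (w + v)) ∧
  (∀ g v, pr B c (B.b g) v = if x1 c g = v then 1 else 0) ∧
  (∀ a, ∑ v, pr B c a v = B.aug a) ∧
  (∀ a x y, x * y = 1 → pr B c (x * a * y) = pr B c a) ∧
  (∀ a a', pr B c (a + a') = pr B c a + pr B c a') ∧
  (∀ (k : K) a, pr B c (k • a) = k • pr B c a)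

/-- CZ (central elements of `H` and of `G`). Uses S_CLS, S_XM. Proof. `H`, `G` are 2-groups
(`|H| = |G| = 2^(|ι|+|κ|)`). First: `C.b h` is central in `A`; the `inl i` coordinate of
`Xl B c (C.b h) = ∑_g (B.repr (C.b h) g) ξ(g)` is the sum of CLS for `B` with the class function
`f(g) = ξ(g)_{inl i}` which vanishes on the centre (`c.center`). Second: let `s : H → K` be additive
with `s = 0` on `Z(H)`, `s_l : A → K` its linear extension (`C.b h ↦ s h`); for `z ∈ Z(G)`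
`s_l (B.b z) = ∑_h (C.repr (B.b z) h) s h = 0` by CLS for `C`; `g ↦ s_l (B.b g)` is additive
(`s_l (a a') = aug a s_l a' + aug a' s_l a`) and kills `Z(G)`, so equals `u (x1 c g)` for an
additive `u`, and `s_l a = ∑_i u(e_i) (Xl B c a)(inl i)` for all `a` (compare on `B.b g`); put
`a = C.b h`. -/
def S_CZ : Prop := ∀ (K : Type u) [Field K] [CharP K 2] (A : Type v) [Ring A] [Algebra K A]
  (G : Type w) [Group G] [Finite G] (H : Type w') [Group H] (ι₁ ι₂ κ : Type) [Fintype ι₁]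
  [DecidableEq ι₁] [Fintype ι₂] [DecidableEq ι₂] [Fintype κ] [DecidableEq κ]
  (B : GBasis K A G) (C : GBasis K A H) (c : Coord G ι₁ ι₂ κ), B.aug = C.aug →
  (∀ (u : (ι₁ → ZMod 2) →+ K) (h : H), h ∈ Subgroup.center H → su B C c u h = 0) ∧
  (∀ s : H → K, (∀ h k, s (h * k) = s h + s k) → (∀ h, h ∈ Subgroup.center H → s h = 0) →
    ∃ u : (ι₁ → ZMod 2) →+ K, ∀ h, su B C c u h = s h)

/-- ZV (the torus derivations kill the centre of `G` modulo the kernel of `pr`). Uses S_CLS, S_PR,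
S_CZ. Proof. `B.b z` is central; `C.tor s (B.b z) = ∑_h (C.repr (B.b z) h) s(h) C.b h`, `s = su u`;
apply `pr · v` and CLS for `C` with `f(h) = s(h) pr(C.b h)(v)`, a class function (`s` is additive,
PR), zero on `Z(H)` by CZ. -/
def S_ZV : Prop := ∀ (K : Type u) [Field K] [CharP K 2] (A : Type v) [Ring A] [Algebra K A]
  (G : Type w) [Group G] [Fintype G] (H : Type w') [Group H] (ι₁ ι₂ κ : Type) [Fintype ι₁]
  [DecidableEq ι₁] [Fintype ι₂] [DecidableEq ι₂] [Fintype κ] [DecidableEq κ]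
  (B : GBasis K A G) (C : GBasis K A H) (c : Coord G ι₁ ι₂ κ), B.aug = C.aug →
  ∀ (u : (ι₁ → ZMod 2) →+ K) (z : G), z ∈ Subgroup.center G →
    ∀ v, pr B c (C.tor (su B C c u) (B.b z)) v = 0

/-- the family `μ` is the family of components of the torus derivations -/
def IsMu {K : Type u} [Field K] [CharP K 2] {A : Type v} [Ring A] [Algebra K A]
    {G : Type w} [Group G] [Fintype G] {H : Type w'} [Group H] {ι₁ ι₂ κ : Type} [Fintype ι₁]
    [DecidableEq ι₁] [Fintype ι₂] (B : GBasis K A G) (C : GBasis K A H) (c : Coord G ι₁ ι₂ κ)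
    (μ : (ι₁ → ZMod 2) → ((ι₁ → ZMod 2) →+ K) →ₗ[K] ((ι₁ → ZMod 2) →+ K)) : Prop :=
  ∀ v u g, μ v u (x1 c g) = pr B c (B.dl (C.tor (su B C c u)) g) v

/-- MU. Uses S_XM (su is additive on H, so C.tor is a derivation), S_PR, S_ZV. Proof.
`g ↦ pr (dl g) v` is additive: `GBasis.dl_mul` and the fourth part of PR; it kills the centre:
`dl z = D (B.b z) * B.b z⁻¹`, first part of PR and ZV. `x1 c : G → (ZMod 2)^{ι₁}` is surjective with
kernel `Z(G)` (`c.bij`, `c.center`), so it factors. Linear in `u`: `su`, `C.tor`, `pr` are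
linear. -/
def S_MU : Prop := ∀ (K : Type u) [Field K] [CharP K 2] (A : Type v) [Ring A] [Algebra K A]
  (G : Type w) [Group G] [Fintype G] (H : Type w') [Group H] (ι₁ ι₂ κ : Type) [Fintype ι₁]
  [DecidableEq ι₁] [Fintype ι₂] [DecidableEq ι₂] [Fintype κ] [DecidableEq κ]
  (B : GBasis K A G) (C : GBasis K A H) (c : Coord G ι₁ ι₂ κ), B.aug = C.aug →
  ∃ μ, IsMu B C c μ

/-- DB. Uses S_PR. Proof. By linearity `a = B.b g`, `x = x1 c g`: `D (B.b g) = dl g * B.b g`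
(GBasis.D_b), so `pr (D (B.b g)) w = ∑_v pr (dl g) v * pr (B.b g) (w + v) = pr (dl g) (w + x) =
μ (w + x) u x`, and `pr (B.b g)` is the indicator of `x`. Second part: `∑_v μ v u (x1 g) =
∑_v pr (dl g) v = aug (dl g) = aug (D (B.b g)) = ∑_i u(e_i) (Xl (B.b g))(inl i) = u (x1 g)`, where
`aug (C.tor s a) = ∑_i u(e_i) (Xl a)(inl i)` for all `a` (compare on `C.b h`; `aug (C.b h) = 1`). -/
def S_DB : Prop := ∀ (K : Type u) [Field K] [CharP K 2] (A : Type v) [Ring A] [Algebra K A]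
  (G : Type w) [Group G] [Fintype G] (H : Type w') [Group H] (ι₁ ι₂ κ : Type) [Fintype ι₁]
  [DecidableEq ι₁] [Fintype ι₂] [DecidableEq ι₂] [Fintype κ] [DecidableEq κ]
  (B : GBasis K A G) (C : GBasis K A H) (c : Coord G ι₁ ι₂ κ), B.aug = C.aug →
  ∀ μ, IsMu B C c μ →
  (∀ u a, pr B c (C.tor (su B C c u) a) = Db μ u (pr B c a)) ∧ (∀ u, ∑ v, μ v u = u)

/-- ALG (algebra of the operators). Proof. Apply the operators to the indicator `δ_x`:
`(Db u (Db u' δ_x))(w + x) = ∑_v μ_v(u')(x) (μ_{w+v}(u)(v) + μ_{w+v}(u)(x))` (substitution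
`y = v + x`); in the commutator the terms `μ_v(u')(x) μ_{w+v}(u)(x)` cancel (`v ↦ w + v`), which
gives the first claim. Second: `∑_w (Db u f)(w) = ∑_x f(x) u(x)` by h1; apply the sum to
`Db u (Db u δ_x) = Db u δ_x`: `∑_v μ_v(u)(x) u(v + x) = u(x)` and `∑_v μ_v(u)(x) = u(x)`. -/
def S_ALG : Prop := ∀ (K : Type u) [Field K] [CharP K 2] (V : Type) [AddCommGroup V] [Fintype V]
  (_hV : ∀ v : V, v + v = 0) (μ : V → (V →+ K) →ₗ[K] (V →+ K)) (_h1 : ∀ u, ∑ v, μ v u = u),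
  ((∀ u u', Db μ u ∘ₗ Db μ u' = Db μ u' ∘ₗ Db μ u) →
    ∀ u u' w, ∑ v, ((μ (w + v) u v) • μ v u' + (μ (w + v) u' v) • μ v u) = 0) ∧
  (∀ u, Db μ u ∘ₗ Db μ u = Db μ u → ∀ x, u x = u x ^ 2 + ∑ v, u v * μ v u x)

/-- PHI. Proof. `U = (V →+ K)` is finite dimensional; take a finite spanning family `u_1, .., u_k` in
the set. `P = ∏ (1 - Db u_i)` (commuting idempotents `Db u_i`), `ϖ x = ∑_w (P δ_x)(w)`.
`Db u δ_0 = 0` (`μ_w(u)(0) = 0`), so `P δ_0 = δ_0`, `ϖ 0 = 1`. `P Db u_i = 0`, so `P Db u = 0` for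
all `u` (Db is linear in `u`), and `Db u δ_x = ∑_v μ_v(u)(x) δ_{v+x}`. -/
def S_PHI : Prop := ∀ (K : Type u) [Field K] [CharP K 2] (V : Type) [AddCommGroup V] [Fintype V]
  (_hV : ∀ v : V, v + v = 0) (μ : V → (V →+ K) →ₗ[K] (V →+ K))
  (_hc : ∀ u u', Db μ u ∘ₗ Db μ u' = Db μ u' ∘ₗ Db μ u)
  (_hs : Submodule.span K {u : V →+ K | Db μ u ∘ₗ Db μ u = Db μ u} = ⊤),
  ∃ ϖ : V → K, ϖ 0 = 1 ∧ ∀ u x, ∑ v, μ v u x * ϖ (v + x) = 0

/-- T3 (components of derivations; the key step). `D` a derivation of `A`, `k₀ ∈ G` not central,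
`m(g) = pr (dl g) (x1 k₀)`, not identically zero. Then the commutators `[g, k₀]` take only one value
besides `1`, and there is an additive `φ` on `(ZMod 2)^κ` with `φ (qd b (ξ g)) = λ(g) m(g)`,
`λ(g) = 0` if `g` commutes with `k₀`, else `1`. Proof. The elements `k` with `x1 k = x1 k₀` are the
`k₀ z`, `z ∈ Z = Z(G)`. Put `a_g(z) = B.repr (dl g) (k₀ z)`, so `m(g) = ∑_{z∈Z} a_g(z)`. By
`GBasis.dl_mul`, `repr_conj` and `g⁻¹ k₀ z g = k₀ z t` with the central commutator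
`t = t(g) = k₀⁻¹ g⁻¹ k₀ g`: `a_{gh}(z) = a_g(z) + a_h(z t(g))`. For `y ∈ Z` (`t(y) = 1`)
`gy = yg` gives `a_y(z t(g)) = a_y(z)` for all `g`: `a_y` is invariant under the group `T` of all
`t(g)` (an elementary abelian subgroup of `Z`; `t` is a homomorphism, as all commutators are
central), and `a_{yy'} = a_y + a_{y'}`. `a_{g g}(z) = a_g(z) + a_g(z t(g))`. If `T` has more than
two elements: for `t(g) ≠ 1`, `m(g) = ∑_{Z/⟨t(g)⟩} a_{gg}(z)` is a sum of a `T`-invariant function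
over `Z/⟨t(g)⟩`, so `0`; for `t(g) = 1` write `g = (g g₁) g₁⁻¹`, `t(g₁) ≠ 1`, `m` is additive: `0`.
So `T = {1, t₁}` (k₀ is not central). Choose representatives of `Z/⟨t₁⟩` (a subset `Z'` with
`Z = Z' ∪ t₁Z'`, `|Z| = 2|Z'|`) and `φ'(y) = ∑_{z∈Z'} a_y(z)` for `y ∈ Z`, additive. If
`t(g) = t₁`: `φ'(g g) = ∑_{Z'} (a_g(z) + a_g(z t₁)) = m(g)`; if `t(g) = 1`: `φ'(gg) = 0`. Let
`φ(w) = φ'(y)` with `ξ y = 0`, `ψ y = w` (c.bij; such `y` are central by c.center), and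
`ξ(gg) = 0`, `ψ(gg) = qd b (ξ g)`. (It may be convenient to prove a version with
`φ' : Z → K` first.) -/
def S_T3 : Prop := ∀ (K : Type u) [Field K] [CharP K 2] (A : Type v) [Ring A] [Algebra K A]
  (G : Type w) [Group G] [Fintype G] (ι₁ ι₂ κ : Type) [Fintype ι₁]
  [DecidableEq ι₁] [Fintype ι₂] [DecidableEq ι₂] [Fintype κ] [DecidableEq κ]
  (B : GBasis K A G) (c : Coord G ι₁ ι₂ κ) (D : A →ₗ[K] A), IsDer D →
  ∀ k₀ : G, k₀ ∉ Subgroup.center G → (∃ g, pr B c (B.dl D g) (x1 c k₀) ≠ 0) →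
  (∃ t₁ : G, ∀ g, k₀⁻¹ * g⁻¹ * k₀ * g = 1 ∨ k₀⁻¹ * g⁻¹ * k₀ * g = t₁) ∧
  ∃ φ : (κ → ZMod 2) →+ K, ∀ g,
    (g * k₀ = k₀ * g → φ (qd c.b (c.ξ g)) = 0) ∧
    (g * k₀ ≠ k₀ * g → φ (qd c.b (c.ξ g)) = pr B c (B.dl D g) (x1 c k₀))

/-- TOR (assembly of the torus data). From S_XM, S_PR, S_CZ, S_MU, S_DB, S_ALG, S_PHI, S_T3. Proof.
`T.β x y = bil b (ext x) (ext y) + bil b (ext y) (ext x)` with `ext x = Sum.elim x 0`; it is the
polar form of `qd b` on `V₀` (`c.center`: vectors with zero `ι₁` part are images of central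
elements, so pair to zero with everything: commutators are `ψ`-detected:
`ψ (gh) - ψ (hg) = bil(ξ g)(ξ h) - bil (ξ h)(ξ g)`). `nondeg` from `c.center`. `μ` from MU, h1 from
DB. The operators `Db μ u` commute and are idempotent for the toral `u` (`su u h ∈ {0,1}` for all
`h`) since `C.tor s` has these properties and `pr` is surjective (DB). hcomm and the last claim from
ALG. The toral `u` span: given `u`, `su u` is additive on `H` and kills `Z(H)` (CZ); `H/Z(H)` is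
elementary abelian ( `Xl (C.b (hh)) = 0`, so `hh` is central in `H`? use: `su u (hh) = 0` for all
`u`, and if `z ∈ H` has `su u z = 0` for all `u`, then `z` ... NOT needed: instead) the image of
`su u` is a finite additive subgroup of `K`; `H / {h | ∀ u', su u' h = 0}` is a finite elementary
abelian group `E`, every additive function `E → K` is a `K`-combination of additive functions
`s_j : E → {0,1}`, each `s_j` kills `Z(H)`, so `s_j = su u_j` by CZ with `u_j` toral, and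
`su (u - ∑ k_j u_j) = 0` gives `u = ∑ k_j u_j` (the vectors `Xl B c (C.b h)` span `K^{ι₁ ⊕ ι₂}`).
hϖ from PHI. hT from T3 (D = C.tor (su u), IsDer by GBasis.isDer_tor): `v = x1 k₀`, `v ≠ 0` iff
`k₀ ∉ Z(G)`; `β v x` is the image of the commutator under `ψ`. -/
def S_TOR : Prop := ∀ (K : Type u) [Field K] [CharP K 2] (A : Type v) [Ring A] [Algebra K A]
  (G : Type w) [Group G] [Fintype G] (H : Type w') [Group H] (ι₁ ι₂ κ : Type) [Fintype ι₁]
  [DecidableEq ι₁] [Fintype ι₂] [DecidableEq ι₂] [Fintype κ] [DecidableEq κ]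
  (B : GBasis K A G) (C : GBasis K A H) (c : Coord G ι₁ ι₂ κ), B.aug = C.aug →
  ∃ T : Tor K (ι₁ → ZMod 2) (κ → ZMod 2) (ι₁ ⊕ ι₂ → ZMod 2), CoordTor c.b T ∧
    Submodule.span K {u : (ι₁ → ZMod 2) →+ K | ∀ h, su B C c u h = 0 ∨ su B C c u h = 1} = ⊤ ∧
    ∀ u : (ι₁ → ZMod 2) →+ K, (∀ h, su B C c u h = 0 ∨ su B C c u h = 1) →
      ∀ x, u x = u x ^ 2 + ∑ v, u v * T.μ v u x

/-- SYMA (the total form is symmetric). Proof. `u v = ∑_{v'} μ_{v'} u v` (h1), so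
`∑_{v≠0} (u v • μ v u' + u' v • μ v u) = ∑_w ∑_{v} (μ_{w+v} u v • μ v u' + ..) = 0` by hcomm. -/
def S_SYMA : Prop := ∀ (K : Type u) [Field K] [CharP K 2] (V W V₀ : Type) [AddCommGroup V]
  [Fintype V] [AddCommGroup W] [AddCommGroup V₀] (T : Tor K V W V₀), SymOn T (Tor.nz V)

/-- M1. `M₁ = P₀² P₀⁻¹` (entrywise square). Proof. Pairing `⟨ζ, y⟩ = ∑_i ζ(e_i) y(inl i)` for
`ζ : V →+ K`, `y ∈ K^{ι₁⊕ι₂}`. For toral `u` and `X = Xl B c (C.b h)`: `⟨u, X⟩ = su u h ∈ {0,1}`,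
`X² = M₁ X` (entrywise square; `X = P₀ x`, `x` over `ZMod 2`), so
`⟨sq u, M₁ X⟩ = ⟨u, X⟩² = ⟨u, X⟩ = ⟨sq u + g (sq u), X⟩` by `htor`
(`u = sq u + ∑_v u v • μ v u`, the term `v = 0` vanishes). The `X` span `K^{ι₁ ⊕ ι₂}`, and the
`sq u`, `u` toral, span `V →+ K` (hspan and square roots). So `⟨ζ, M₁ y⟩ = ⟨ζ + g ζ, y⟩` for all
`ζ, y`; take `ζ = crd i`, `y = e_{inl j}` and `y = e_{inr j}`. -/
def S_M1 : Prop := ∀ (K : Type u) [Field K] [CharP K 2] (_hs : ∀ a : K, ∃ b, b ^ 2 = a)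
  (A : Type v) [Ring A] [Algebra K A]
  (G : Type w) [Group G] [Fintype G] (H : Type w') [Group H] (ι₁ ι₂ κ : Type) [Fintype ι₁]
  [DecidableEq ι₁] [Fintype ι₂] [DecidableEq ι₂] [Fintype κ] [DecidableEq κ]
  (B : GBasis K A G) (C : GBasis K A H) (c : Coord G ι₁ ι₂ κ)
  (P₀ : Matrix (ι₁ ⊕ ι₂) (ι₁ ⊕ ι₂) K), P₀.det ≠ 0 →
  (∀ h, ∃ x : ι₁ ⊕ ι₂ → ZMod 2, Xl B c (C.b h) = P₀.mulVec (cst K x)) →
  (∀ x : ι₁ ⊕ ι₂ → ZMod 2, ∃ h, Xl B c (C.b h) = P₀.mulVec (cst K x)) →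
  ∀ (T : Tor K (ι₁ → ZMod 2) (κ → ZMod 2) (ι₁ ⊕ ι₂ → ZMod 2)),
  Submodule.span K {u : (ι₁ → ZMod 2) →+ K | ∀ h, su B C c u h = 0 ∨ su B C c u h = 1} = ⊤ →
  (∀ u : (ι₁ → ZMod 2) →+ K, (∀ h, su B C c u h = 0 ∨ su B C c u h = 1) →
      ∀ x, u x = u x ^ 2 + ∑ v, u v * T.μ v u x) →
  ∀ g : Module.End K ((ι₁ → ZMod 2) →+ K), (∀ u, g (sq u) = T.bq (Tor.nz (ι₁ → ZMod 2)) u) →
  ∃ (Cc : Matrix ι₂ ι₁ K) (Dd : Matrix ι₂ ι₂ K),
    P₀.map (fun a => a ^ 2) * P₀⁻¹ = Matrix.fromBlocks (mat (1 + g)) 0 Cc Dd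

/-- STQ. Uses S_QE. Proof. For `a : V →+ K` put `a_K(y) = ∑_i a(e_i) y(inl i)`. The function identity
`φ (q x) = a(px) b(px) + c(px) d(px)` extends to `K`-points `y` by QE:
`∑_k φ(e_k) q(y)_k = a_K(y) b_K(y) + c_K(y) d_K(y)`. Insert `y = M₁ x` with `x` over `ZMod 2`:
`q(M₁ x) = C₁ q(x)` and `a_K(M₁ x) = (a + g a)(p x)` (definition of `mat`,
`a = ∑_i a(e_i) crd i`). -/
def S_STQ : Prop := ∀ (K : Type u) [Field K] [CharP K 2] (ι₁ ι₂ κ : Type) [Fintype ι₁]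
  [DecidableEq ι₁] [Fintype ι₂] [DecidableEq ι₂] [Fintype κ] [DecidableEq κ]
  (b : (ι₁ ⊕ ι₂) → (ι₁ ⊕ ι₂) → κ → ℤ)
  (T : Tor K (ι₁ → ZMod 2) (κ → ZMod 2) (ι₁ ⊕ ι₂ → ZMod 2)), CoordTor b T →
  ∀ (g : Module.End K ((ι₁ → ZMod 2) →+ K)) (Cc : Matrix ι₂ ι₁ K) (Dd : Matrix ι₂ ι₂ K)
    (C₁ : Matrix κ κ K),
  InStab b (Matrix.fromBlocks (mat (1 + g)) 0 Cc Dd) C₁ → StabQ T g

/-! ## Section 4: groups -/

/-- ICR (isomorphism from a correspondence; compare Q21.MI.iso_of_corr in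
Pool/Agent/Q21/MI/Grp.lean, whose proof can be adapted). Proof. Take a maximal subgroup `Δ` with
`N ≤ Δ ≤ Γ` and trivial intersections with `G × 1`, `1 × H`. `N` contains the commutators of `Γ`
(`x y x⁻¹ y⁻¹ = x² (x⁻¹ y)² y⁻²`). If `|Δ| < |G|`, both projections of `Δ` are not surjective, the
subgroups `S1 = {x ∈ Γ | x.2 ∈ pr₂ Δ}`, `S2` are proper, so some `v ∈ Γ` is outside both, and
`Δ ∪ Δ v` is a larger subgroup with the same properties (`v² ∈ N`). So `Δ` is the graph of an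
isomorphism. -/
def S_ICR : Prop := ∀ (G : Type w) (H : Type w') [Group G] [Group H] [Finite G] [Finite H]
  (Γ N : Subgroup (G × H)), N ≤ Γ → (∀ x ∈ Γ, x * x ∈ N) →
  (∀ g : G, (g, (1 : H)) ∈ N → g = 1) → (∀ h : H, ((1 : G), h) ∈ N → h = 1) →
  (∀ g : G, ∃ h : H, (g, h) ∈ Γ) → (∀ h : H, ∃ g : G, (g, h) ∈ Γ) → Nat.card G = Nat.card H →
  ∃ e : G ≃* H, (∀ g, (g, e g) ∈ Γ) ∧ ∀ x ∈ N, e x.1 = x.2

/-- EXT. From S_ICR with `Γ = {(g,h) | ξ g = ξ' h}`, `N = {(g,h) | ξ g = 0, ξ' h = 0, θ g = θ' h}`. -/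
def S_EXT : Prop := ∀ (G : Type w) (H : Type w') [Group G] [Group H] (ι κ : Type) [Finite ι]
  [Finite κ] (P : Pre G ι κ) (P' : Pre H ι κ),
  (∀ g h, P.ξ g = P'.ξ h → P.θ (g * g) = P'.θ (h * h)) →
  ∃ e : G ≃* H, (∀ g, P'.ξ (e g) = P.ξ g) ∧ ∀ g, P.ξ g = 0 → P'.θ (e g) = P.θ g

/-- A1a (first coordinates). Proof. `S` the subgroup generated by the squares: central, exponent
two, contains the commutators; the quotient `E = G/S` is elementary abelian; `Z(G)/S` a subspace,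
choose a complement and bases (`ZMod 2`-vector spaces); `θ` the coordinates on `S`, `0` elsewhere.
The elements `θ (g * g)` span as `S` is generated by the squares. -/
def S_A1a : Prop := ∀ (G : Type w) [Group G] [Finite G],
  (∀ g h : G, g * g * h = h * (g * g)) → (∀ g : G, g * g * (g * g) = 1) →
  ∃ (n₁ n₂ m : ℕ) (P : Pre G (Fin n₁ ⊕ Fin n₂) (Fin m)),
    (∀ g, g ∈ Subgroup.center G ↔ ∀ i, P.ξ g (Sum.inl i) = 0) ∧
    Submodule.span (ZMod 2) (Set.range (fun g => P.θ (g * g))) = ⊤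

/-- A1b (the bilinear cocycle). From S_EXT. Proof. `q̄ : (ZMod 2)^ι → (ZMod 2)^κ`,
`q̄ (ξ g) = θ (g * g)` is well defined (elements with `ξ = 0` are central of exponent two) and
quadratic with polar form the commutator: `θ ((gh)²) = θ(g²) + θ(h²) + θ([g,h])` and
`(ξ g, ξ h) ↦ θ [g,h]` bilinear. Choose `b` (integers 0, 1) with `b i i k = q̄(e_i)_k`,
`b i j k = polar(e_i,e_j)_k` for `i < j`, `0` for `i > j` (after `Fintype.equivFin` or any linear
order): `qd b x = q̄ x`. The model group `E_b = (ZMod 2)^ι × (ZMod 2)^κ` with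
`(x,y)(x',y') = (x + x', y + y' + bil b x x')` is a group with obvious `Pre` data, squares
`(0, qd b x)`; EXT gives an isomorphism `G ≃ E_b`; `ψ` is its second component. -/
def S_A1b : Prop := ∀ (G : Type w) [Group G] (ι κ : Type) [Fintype ι] [Fintype κ]
  (P : Pre G ι κ), ∃ (b : ι → ι → κ → ℤ) (ψ : G → κ → ZMod 2),
    (∀ g h, ψ (g * h) = ψ g + ψ h + bil b (P.ξ g) (P.ξ h)) ∧ ∀ g, P.ξ g = 0 → ψ g = P.θ g

/-- A1 (coordinates exist). From S_A1a, S_A1b. -/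
def S_A1 : Prop := ∀ (G : Type w) [Group G] [Finite G],
  (∀ g h : G, g * g * h = h * (g * g)) → (∀ g : G, g * g * (g * g) = 1) →
  ∃ (n₁ n₂ m : ℕ), Nonempty (Coord G (Fin n₁) (Fin n₂) (Fin m))

/-- A6 (prime two: from the third dimension subgroup). See Pool/Agent/Q21/MI/Dim.lean
(`comm_mem`, `class_two`, `exp_odd`). Proof. `g² - 1 = (g - 1)² ∈ Δ²`, so `[g², h] ∈ D_3 = 1`;
`g⁴ - 1 = (g - 1)⁴ ∈ Δ⁴ ⊆ Δ³`. -/
def S_A6 : Prop := ∀ (F : Type u) [Field F] [CharP F 2] (G : Type w) [Group G],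
  dimSubgroup F G 3 = {1} →
  (∀ g h : G, g * g * h = h * (g * g)) ∧ (∀ g : G, g * g * (g * g) = 1)

/-- A5 (extension of scalars). Proof. For `e : F[G] ≃ F[H]` the map `G → K[H]`,
`g ↦ ι(e(g))` (`ι` the coefficient map) is multiplicative; lift; the same for `e⁻¹`; the
compositions are the identity (check on group elements). -/
def S_A5 : Prop := ∀ (F : Type u) [Field F] (K : Type v) [Field K] [Algebra F K]
  (G : Type w) [Group G] (H : Type w') [Group H],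
  Nonempty (MonoidAlgebra F G ≃ₐ[F] MonoidAlgebra F H) →
  Nonempty (MonoidAlgebra K G ≃ₐ[K] MonoidAlgebra K H)

/-- MN (main theorem for an algebraically closed field). From S_BAD, S_BLK, S_GAM, S_SYMA, S_FAC,
S_PL, S_XM, S_FORM, S_TOR, S_M1, S_STQ, S_QE, S_EXT. Proof. Take `P₀, R₀` (FORM), `T` (TOR),
`g` (GAM for `nz`, SYMA), `M₁ = P₀² P₀⁻¹`, `C₁ = R₀² R₀⁻¹` (entrywise squares).
`InStab b M₁ C₁`: for `x = P₀ y`, `y` over `ZMod 2`, `qd b x ∈ R₀ (ZMod 2)^κ` (it is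
`Pl (C.b (h*h))`, XM), so `qd b (M₁ x) = qd b (x²) = (qd b x)² = C₁ qd b x`; both sides are
quadratic in `y`, so QE gives all `y ∈ K^ι`. M1: `M₁ = fromBlocks (mat (1 + g)) 0 Cc Dd`.
`1 + g` is injective (`M₁` is invertible, so `mat (1 + g)` is injective as the block of a block
triangular invertible matrix has nonzero determinant). STQ, BLK, FAC, PL: `P, R, C₁'` with
`P² = M₁ P`, `R² = C₁' R`, `q(P x) = R q(x)`; `C₁' = C₁` (both satisfy `C q(x) = q(M₁ x)`, `q`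
spans). `P₀⁻¹ P` is fixed by the entrywise square, so has entries in `ZMod 2`, likewise `R₀⁻¹ R`.
Define `ξ_H(h)`, `θ_H(h)` over `ZMod 2` by `Xl (C.b h) = P ξ_H(h)`,
`Pl (C.b h) = R θ_H(h)` (when `Xl (C.b h) = 0`): `Pre` data for `H` (central: for
`X_z = 0`, `Ψ(zh) = Ψ(z) + Ψ(h) = Ψ(hz)` and the last statement of FORM applied to the commutator),
with `θ_H(h*h) = q(ξ_H h)`. `Pre` data for `G` from `c` (`θ = ψ`). EXT. -/
def S_MN : Prop := ∀ (K : Type u) [Field K] [IsAlgClosed K] [CharP K 2] (A : Type v) [Ring A]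
  [Algebra K A] (G : Type w) [Group G] [Finite G] (H : Type w') [Group H] (ι₁ ι₂ κ : Type)
  [Fintype ι₁] [DecidableEq ι₁] [Fintype ι₂] [DecidableEq ι₂] [Fintype κ] [DecidableEq κ]
  (B : GBasis K A G) (C : GBasis K A H) (_c : Coord G ι₁ ι₂ κ), B.aug = C.aug →
  Nonempty (G ≃* H)

/-- FIN (the theorem for the prime two). From S_MN, S_A1, S_A6, S_A5. Proof. `K` an algebraic
closure of `F`; two group bases of `K[G]` (GBasis.std, GBasis.map); twist `C` by a character as in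
Q21.MI.GBasis.iso (Pool/Agent/Q21/MI/Fin.lean) to make the augmentations equal. -/
def S_FIN : Prop := ∀ (F : Type u) [Field F] [CharP F 2] (G : Type w) [Group G] [Finite G],
  dimSubgroup F G 3 = {1} → ∀ (H : Type w') [Group H],
  Nonempty (MonoidAlgebra F G ≃ₐ[F] MonoidAlgebra F H) → Nonempty (G ≃* H)

end Q12.MI2
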